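import Pool.Agent.H87.LV.So

/-!
# LV Uniq: identity theorem for the limits of sections over a connected open set

`ident`: two maps on a connected open set which satisfy the local identity theorem outside a closed discrete set `B` satisfy the global one outside `B`.
`SLift`: local lifts of the members of `SO`.  `so_uniq`.
-/

set_option autoImplicit false

open Topology Filter Metric

namespace Pool.Agent.H87.LV

open Pool.Agent.H36.BP (EN)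
open Pool.Agent.H62.EF (MN pr pr_eq_iff)
open Pool.Agent.H62.EL (Gd BadSet gd_mono gd_notMem)
open Pool.Agent.H18.LU (SecAt SO)

/-- the punctured disc is connected -/
theorem preconnected_punct (z : ℂ) (r : ℝ) : IsPreconnected (ball z r \ {z}) := by
  have h1 : IsPreconnected (Set.Ioo (0 : ℝ) r ×ˢ (Set.univ : Set ℝ)) := isPreconnected_Ioo.prod isPreconnected_univ
  have hc : Continuous fun p : ℝ × ℝ => z + (p.1 : ℂ) * Complex.exp (p.2 * Complex.I) := by fun_prop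
  have h2 := h1.image _ hc.continuousOn
  have h3 : (fun p : ℝ × ℝ => z + (p.1 : ℂ) * Complex.exp (p.2 * Complex.I)) '' (Set.Ioo (0 : ℝ) r ×ˢ (Set.univ : Set ℝ)) = ball z r \ {z} := by
    ext w
    constructor
    · rintro ⟨p, ⟨⟨hp1, hp2⟩, -⟩, rfl⟩
      have hn : ‖(p.1 : ℂ) * Complex.exp (p.2 * Complex.I)‖ = p.1 := by
        rw [norm_mul, Complex.norm_exp_ofReal_mul_I, mul_one, Complex.norm_real, Real.norm_of_nonneg hp1.le]
      refine ⟨?_, ?_⟩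
      · rw [mem_ball, dist_eq_norm, add_sub_cancel_left, hn]
        exact hp2
      · intro h
        have h4 : (p.1 : ℂ) * Complex.exp (p.2 * Complex.I) = 0 := by
          have h5 : z + (p.1 : ℂ) * Complex.exp (p.2 * Complex.I) = z := h
          rwa [add_eq_left] at h5
        rw [h4, norm_zero] at hn
        exact hp1.ne hn
    · rintro ⟨hw, hwz⟩
      have hne : w - z ≠ 0 := sub_ne_zero.2 hwz
      refine ⟨(‖w - z‖, Complex.arg (w - z)), ⟨⟨norm_pos_iff.2 hne, ?_⟩, Set.mem_univ _⟩, ?_⟩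
      · rw [mem_ball, dist_eq_norm] at hw
        exact hw
      · show z + (‖w - z‖ : ℂ) * Complex.exp (Complex.arg (w - z) * Complex.I) = w
        rw [Complex.norm_mul_exp_arg_mul_I]
        ring
  rwa [h3] at h2

theorem ident {Y : Type*} {Ω B : Set ℂ} (hΩ : IsOpen Ω) (hΩc : IsPreconnected Ω) (hB : ∀ z, ∀ᶠ w in 𝓝[≠] z, w ∉ B) {f g : ℂ → Y}
    (hloc : ∀ z ∈ Ω, z ∉ B → (∃ᶠ w in 𝓝[≠] z, f w = g w) → ∀ᶠ w in 𝓝 z, f w = g w) {z₀ : ℂ} (hz₀ : z₀ ∈ Ω) (hz₀B : z₀ ∉ B)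
    (h : ∃ᶠ w in 𝓝[≠] z₀, f w = g w) : ∀ z ∈ Ω, z ∉ B → f z = g z := by
  set A : Set ℂ := {z | ∀ᶠ w in 𝓝[≠] z, f w = g w} with hA
  have hAo : IsOpen A := by
    rw [isOpen_iff_mem_nhds]
    intro z hz
    have h1 : ∀ᶠ w in 𝓝 z, w ≠ z → f w = g w := by
      have h2 : ∀ᶠ w in 𝓝[≠] z, f w = g w := hz
      rwa [eventually_nhdsWithin_iff] at h2
    obtain ⟨V, hV, hVo, hzV⟩ := _root_.mem_nhds_iff.1 h1
    refine Filter.mem_of_superset (hVo.mem_nhds hzV) fun w hw => ?_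
    by_cases hwz : w = z
    · rw [hwz]
      exact hz
    · have h3 : V ∩ {z}ᶜ ∈ 𝓝 w := (hVo.inter isOpen_compl_singleton).mem_nhds ⟨hw, hwz⟩
      have h4 : ∀ᶠ x in 𝓝 w, f x = g x := by
        filter_upwards [h3] with x hx
        exact hV hx.1 hx.2
      exact h4.filter_mono nhdsWithin_le_nhds
  -- near a point of the closure there are points with `f = g`
  have hfreq : ∀ z ∈ closure A, ∃ᶠ w in 𝓝[≠] z, f w = g w := by
    intro z hzc hcontra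
    have h1 : ∀ᶠ w in 𝓝 z, w ≠ z → ¬ f w = g w := by
      rw [eventually_nhdsWithin_iff] at hcontra
      exact hcontra
    obtain ⟨V, hV, hVo, hzV⟩ := _root_.mem_nhds_iff.1 h1
    obtain ⟨w, hwV, hwA⟩ := _root_.mem_closure_iff.1 hzc V hVo hzV
    have h2 : ∀ᶠ x in 𝓝[≠] w, f x = g x := hwA
    have h3 : ∀ᶠ x in 𝓝[≠] w, x ∈ V := mem_nhdsWithin_of_mem_nhds (hVo.mem_nhds hwV)
    by_cases hwz : w = z
    · obtain ⟨x, ⟨hx1, hx2⟩, hx3⟩ := ((h2.and h3).and (self_mem_nhdsWithin : ∀ᶠ x in 𝓝[≠] w, x ∈ ({w}ᶜ : Set ℂ))).exists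
      exact hV hx2 (by rw [← hwz]; exact hx3) hx1
    · have h4 : ∀ᶠ x in 𝓝[≠] w, x ≠ z := mem_nhdsWithin_of_mem_nhds (isOpen_compl_singleton.mem_nhds hwz)
      obtain ⟨x, ⟨hx1, hx2⟩, hx3⟩ := ((h2.and h3).and h4).exists
      exact hV hx2 hx3 hx1
  have hcl1 : ∀ z ∈ Ω, z ∉ B → z ∈ closure A → ∀ᶠ w in 𝓝 z, f w = g w := fun z hz hzB hzc => hloc z hz hzB (hfreq z hzc)
  have hz₀A : z₀ ∈ A := (hloc z₀ hz₀ hz₀B h).filter_mono nhdsWithin_le_nhds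
  have hsub : Ω ⊆ A := by
    refine hΩc.subset_of_closure_inter_subset hAo ⟨z₀, hz₀, hz₀A⟩ ?_
    rintro z ⟨hzc, hz⟩
    by_cases hzB : z ∈ B
    · -- a punctured disc around `z`
      obtain ⟨r, hr, hrb⟩ : ∃ r : ℝ, 0 < r ∧ ∀ w ∈ ball z r, w ∈ Ω ∧ (w ≠ z → w ∉ B) := by
        have h1 : ∀ᶠ w in 𝓝 z, w ∈ Ω ∧ (w ≠ z → w ∉ B) := by
          have h2 := hB z
          rw [eventually_nhdsWithin_iff] at h2
          exact Filter.Eventually.and (hΩ.mem_nhds hz) h2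
        obtain ⟨r, hr, hrb⟩ := Metric.eventually_nhds_iff_ball.1 h1
        exact ⟨r, hr, hrb⟩
      obtain ⟨w, hw, hwA⟩ := _root_.mem_closure_iff.1 hzc (ball z r) isOpen_ball (mem_ball_self hr)
      by_cases hwz : w = z
      · rwa [hwz] at hwA
      · have h3 : ball z r \ {z} ⊆ A := by
          refine (preconnected_punct z r).subset_of_closure_inter_subset hAo ⟨w, ⟨hw, hwz⟩, hwA⟩ ?_
          rintro x ⟨hxc, hx⟩
          exact (hcl1 x (hrb x hx.1).1 ((hrb x hx.1).2 hx.2) hxc).filter_mono nhdsWithin_le_nhds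
        show ∀ᶠ x in 𝓝[≠] z, f x = g x
        rw [eventually_nhdsWithin_iff]
        filter_upwards [ball_mem_nhds z hr] with x hx hxz
        exact (hcl1 x (hrb x hx).1 ((hrb x hx).2 hxz) (subset_closure (h3 ⟨hx, hxz⟩))).self_of_nhds
    · exact (hcl1 z hz hzB hzc).filter_mono nhdsWithin_le_nhds
  intro z hz hzB
  exact (hcl1 z hz hzB (subset_closure (hsub hz))).self_of_nhds

variable {N : ℕ} {X D : Set (EN N)} {Λ : AddSubgroup ℂ} {u : EN N → ℂ} {B : Set ℂ} {δ : ℝ}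

/-- local lifts of the members of `SO` -/
def SLift (X D : Set (EN N)) (Λ : AddSubgroup ℂ) (u : EN N → ℂ) (B : Set ℂ) : Prop :=
  ∀ Ω : Set ℂ, IsOpen Ω → ∀ f ∈ SO X D Λ u B Ω, ∀ z₀ ∈ Ω, z₀ ∉ B → ∃ (r : ℝ) (Ψ : ℂ → EN N), 0 < r ∧ DifferentiableOn ℂ Ψ (ball z₀ r) ∧
    ∀ z ∈ ball z₀ r, Ψ z ∈ X ∧ u (Ψ z) - z ∈ Λ ∧ pr (Ψ z) = f z

/-- local identity theorem in projective space -/
theorem pr_ident {Ψ Φ : ℂ → EN N} {z₁ : ℂ} (hΨa : AnalyticAt ℂ Ψ z₁) (hΦa : AnalyticAt ℂ Φ z₁) (hΨ0 : ∀ᶠ z in 𝓝 z₁, Ψ z ≠ 0)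
    (hΦ0 : ∀ᶠ z in 𝓝 z₁, Φ z ≠ 0) (h : ∃ᶠ z in 𝓝[≠] z₁, pr (Ψ z) = pr (Φ z)) : ∀ᶠ z in 𝓝 z₁, pr (Ψ z) = pr (Φ z) := by
  have hco : ∀ (H : ℂ → EN N), AnalyticAt ℂ H z₁ → ∀ i, AnalyticAt ℂ (fun z => H z i) z₁ := by
    intro H hH i
    exact ((EuclideanSpace.proj (𝕜 := ℂ) i : EN N →L[ℂ] ℂ).analyticAt _).comp hH
  have hmin : ∀ i j, ∀ᶠ z in 𝓝 z₁, Ψ z i * Φ z j - Ψ z j * Φ z i = 0 := by
    intro i j
    have ha : AnalyticAt ℂ (fun z => Ψ z i * Φ z j - Ψ z j * Φ z i) z₁ :=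
      ((hco Ψ hΨa i).mul (hco Φ hΦa j)).sub ((hco Ψ hΨa j).mul (hco Φ hΦa i))
    refine ha.frequently_zero_iff_eventually_zero.1 ?_
    have h1 : ∀ᶠ z in 𝓝[≠] z₁, Ψ z ≠ 0 ∧ Φ z ≠ 0 := (hΨ0.and hΦ0).filter_mono nhdsWithin_le_nhds
    refine (h.and_eventually h1).mono ?_
    rintro z ⟨h4, hz1, hz2⟩
    obtain ⟨c, _, hc⟩ := (pr_eq_iff hz1 hz2).1 h4
    have h5 : ∀ k, Ψ z k = c * Φ z k := by
      intro k
      rw [hc]
      simp
    rw [h5 i, h5 j]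
    ring
  have hall : ∀ᶠ z in 𝓝 z₁, ∀ i j, Ψ z i * Φ z j - Ψ z j * Φ z i = 0 :=
    Filter.eventually_all.2 fun i => Filter.eventually_all.2 fun j => hmin i j
  filter_upwards [hall, hΨ0, hΦ0] with z hz h10 h20
  obtain ⟨j, hj⟩ : ∃ j, Φ z j ≠ 0 := by
    by_contra hcon
    push Not at hcon
    apply h20
    ext k
    simpa using hcon k
  have hFc : Ψ z = (Ψ z j / Φ z j) • Φ z := by
    ext k
    have h1 := hz k j
    simp only [PiLp.smul_apply, smul_eq_mul]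
    field_simp
    linear_combination h1
  have hne : Ψ z j / Φ z j ≠ 0 := by
    intro h'
    rw [h', zero_smul] at hFc
    exact h10 hFc
  exact (pr_eq_iff h10 h20).2 ⟨_, hne, hFc⟩

theorem badSet_disc (hB : BadSet B Λ δ) (z : ℂ) : ∀ᶠ w in 𝓝[≠] z, w ∉ B := by
  have hδ := hB.pos
  rw [eventually_nhdsWithin_iff]
  by_cases h : ∃ b ∈ B, ‖b - z‖ < 4 * δ ∧ b ≠ z
  · obtain ⟨b, hb, hbz, hne⟩ := h
    have hpos : 0 < ‖b - z‖ := norm_pos_iff.2 (sub_ne_zero.2 hne)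
    filter_upwards [ball_mem_nhds z (lt_min hpos (by linarith : 0 < 4 * δ))] with w hw hwz hwB
    rw [mem_ball, dist_eq_norm] at hw
    have h1 := hw.trans_le (min_le_left _ _)
    have h2 := hw.trans_le (min_le_right _ _)
    have h3 : b ≠ w := by
      rintro rfl
      exact lt_irrefl _ h1
    have h4 := hB.sep b hb w hwB h3
    have h5 : b - w = (b - z) - (w - z) := by ring
    rw [h5] at h4
    have h6 := norm_sub_le (b - z) (w - z)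
    linarith
  · push Not at h
    filter_upwards [ball_mem_nhds z (by linarith : 0 < 4 * δ)] with w hw hwz hwB
    rw [mem_ball, dist_eq_norm] at hw
    exact hwz (h w hwB hw)

theorem so_uniq (hX : ∀ x ∈ X, x ≠ 0) (hB : BadSet B Λ δ) (hL : SLift X D Λ u B) {Ω : Set ℂ} (hΩ : IsOpen Ω) (hΩc : Convex ℝ Ω) {f g : ℂ → MN N}
    (hf : f ∈ SO X D Λ u B Ω) (hg : g ∈ SO X D Λ u B Ω) {z₀ : ℂ} (hz₀ : z₀ ∈ Ω) (hz₀B : z₀ ∉ B) (h : ∃ᶠ w in 𝓝[≠] z₀, f w = g w) :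
    ∀ z ∈ Ω, z ∉ B → f z = g z := by
  refine ident hΩ hΩc.isPreconnected (badSet_disc hB) ?_ hz₀ hz₀B h
  intro z₁ hz₁ hz₁B hfr
  obtain ⟨r, Ψ, hr, hΨd, hΨ⟩ := hL Ω hΩ f hf z₁ hz₁ hz₁B
  obtain ⟨s, Φ, hs, hΦd, hΦ⟩ := hL Ω hΩ g hg z₁ hz₁ hz₁B
  have hbr : ball z₁ r ∈ 𝓝 z₁ := isOpen_ball.mem_nhds (mem_ball_self hr)
  have hbs : ball z₁ s ∈ 𝓝 z₁ := isOpen_ball.mem_nhds (mem_ball_self hs)
  have h1 : ∃ᶠ z in 𝓝[≠] z₁, pr (Ψ z) = pr (Φ z) := by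
    refine (hfr.and_eventually (mem_nhdsWithin_of_mem_nhds (Filter.inter_mem hbr hbs))).mono ?_
    rintro z ⟨h2, h3, h4⟩
    rw [(hΨ z h3).2.2, (hΦ z h4).2.2, h2]
  have h2 := pr_ident (hΨd.analyticAt hbr) (hΦd.analyticAt hbs) (by filter_upwards [hbr] with z hz using hX _ (hΨ z hz).1)
    (by filter_upwards [hbs] with z hz using hX _ (hΦ z hz).1) h1
  filter_upwards [h2, hbr, hbs] with z hz h3 h4
  rw [← (hΨ z h3).2.2, ← (hΦ z h4).2.2, hz]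

end Pool.Agent.H87.LV
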