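import Pool.Agent.H18.LU.Defs
import Pool.Agent.H62.EL.DyA
import Pool.Agent.H62.EF.PrA

/-!
# LV So: formal properties of the limits of sections `SO X D Λ u B Ω`

`SLip`: local Lipschitz bounds for the sections, locally uniform outside `B`.  Consequences for `SO`: `so_anti`, `so_lip`, `so_mem`, `so_trans`, `so_lim`.
-/

set_option autoImplicit false

open Topology Filter Metric

namespace Pool.Agent.H87.LV

open Pool.Agent.H36.BP (EN)
open Pool.Agent.H14.PP (IsCone)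
open Pool.Agent.H62.EF (MN pr)
open Pool.Agent.H62.EL (Gd BadSet gd_mono gd_notMem isClosed_gd)
open Pool.Agent.H18.LU (SecAt SO)

variable {N : ℕ} {X D : Set (EN N)} {Λ : AddSubgroup ℂ} {u : EN N → ℂ} {B : Set ℂ} {δ : ℝ}

/-- local Lipschitz bounds for the sections -/
def SLip (X D : Set (EN N)) (Λ : AddSubgroup ℂ) (u : EN N → ℂ) (B : Set ℂ) : Prop :=
  ∀ δ' R : ℝ, 0 < δ' → ∃ L : ℝ, 0 < L ∧ ∀ F : ℂ → EN N, ∀ z ∈ Gd B δ', |z.re| ≤ R → (∀ w ∈ closedBall z δ', SecAt X D Λ u F w) →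
    ∀ w ∈ closedBall z (δ' / 2), dist (pr (F z)) (pr (F w)) ≤ L * ‖z - w‖

theorem so_anti {Ω Ω' : Set ℂ} (h : Ω' ⊆ Ω) : SO X D Λ u B Ω ⊆ SO X D Λ u B Ω' := fun _ hf K hK => hf K (hK.trans h)

theorem gd_half {δ' : ℝ} {z w : ℂ} (hz : z ∈ Gd B δ') (hw : w ∈ closedBall z (δ' / 2)) : w ∈ Gd B (δ' / 2) := by
  intro b hb
  have h1 := hz b hb
  rw [mem_closedBall, dist_comm, dist_eq_norm] at hw
  have h2 : ‖z - b‖ ≤ ‖z - w‖ + ‖w - b‖ := by
    calc ‖z - b‖ = ‖(z - w) + (w - b)‖ := by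
          congr 1
          ring
      _ ≤ _ := norm_add_le _ _
  linarith

theorem so_lip (hL : SLip X D Λ u B) {δ' : ℝ} (hδ' : 0 < δ') (R : ℝ) :
    ∃ L : ℝ, 0 < L ∧ ∀ Ω : Set ℂ, ∀ f ∈ SO X D Λ u B Ω, ∀ z ∈ Gd B δ', |z.re| ≤ R → closedBall z δ' ⊆ Ω →
      ∀ w ∈ closedBall z (δ' / 2), dist (f z) (f w) ≤ L * ‖z - w‖ := by
  obtain ⟨L, hL0, hlip⟩ := hL δ' R hδ'
  refine ⟨L, hL0, fun Ω f hf z hz hzR hsub w hw => ?_⟩
  have hw' := gd_half hz hw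
  refine le_of_forall_pos_le_add fun ε hε => ?_
  obtain ⟨F, hF, hFd⟩ := hf (closedBall z δ') hsub (isCompact_closedBall z δ') (δ' / 2) (ε / 2) (by linarith) (by linarith)
  have hwz : w ∈ closedBall z δ' := closedBall_subset_closedBall (by linarith) hw
  have h1 := hFd z (mem_closedBall_self hδ'.le) (gd_mono (by linarith) hz)
  have h2 := hFd w hwz hw'
  have h3 := hlip F z hz hzR hF w hw
  calc dist (f z) (f w) ≤ dist (f z) (pr (F z)) + dist (pr (F z)) (pr (F w)) + dist (pr (F w)) (f w) :=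
        dist_triangle4 _ _ _ _
    _ ≤ ε / 2 + L * ‖z - w‖ + ε / 2 := by
        rw [dist_comm (f z)]
        linarith
    _ = L * ‖z - w‖ + ε := by ring

/-- projective space -/
def KN (N : ℕ) : Set (MN N) := pr '' {x : EN N | x ≠ 0}

theorem isCompact_KN : IsCompact (KN N) := by
  refine Pool.Agent.H62.EF.isCompact_pr (X := {x : EN N | x ≠ 0}) ⟨fun h => h rfl, fun x hx c hc => smul_ne_zero hc hx, ?_⟩
  have h1 : insert (0 : EN N) {x : EN N | x ≠ 0} = Set.univ := by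
    ext x
    simp only [Set.mem_insert_iff, Set.mem_setOf_eq, Set.mem_univ, iff_true]
    exact em (x = 0)
  rw [h1]
  exact isClosed_univ

theorem so_mem (hX : ∀ x ∈ X, x ≠ 0) (hB : BadSet B Λ δ) {Ω : Set ℂ} {f : ℂ → MN N} (hf : f ∈ SO X D Λ u B Ω) {z : ℂ} (hzΩ : z ∈ Ω) (hz : z ∉ B) :
    f z ∈ KN N := by
  obtain ⟨δ', hδ', hz'⟩ := hB.exists_gd hz
  have hc := (isCompact_KN (N := N)).isClosed
  rw [← hc.closure_eq, Metric.mem_closure_iff]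
  intro ε hε
  obtain ⟨F, hF, hFd⟩ := hf {z} (Set.singleton_subset_iff.2 hzΩ) isCompact_singleton δ' ε hδ' hε
  refine ⟨pr (F z), ⟨F z, hX _ (hF z rfl).2.self_of_nhds.1, rfl⟩, ?_⟩
  rw [dist_comm]
  exact hFd z rfl hz'

theorem SecAt.shift {F : ℂ → EN N} {z l : ℂ} (hl : l ∈ Λ) (h : SecAt X D Λ u F (z + l)) : SecAt X D Λ u (fun w => F (w + l)) z := by
  have hc : Tendsto (fun w : ℂ => w + l) (𝓝 z) (𝓝 (z + l)) := (continuous_id.add continuous_const).tendsto z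
  refine ⟨?_, ?_⟩
  · have h1 : AnalyticAt ℂ (fun w : ℂ => w + l) z := analyticAt_id.add analyticAt_const
    exact AnalyticAt.comp (g := F) (f := fun w : ℂ => w + l) h.1 h1
  · filter_upwards [hc.eventually h.2] with w hw
    refine ⟨hw.1, hw.2.1, ?_⟩
    have h1 : u (F (w + l)) - w = (u (F (w + l)) - (w + l)) + l := by ring
    rw [h1]
    exact Λ.add_mem hw.2.2 hl

theorem so_trans (hB : BadSet B Λ δ) {Ω : Set ℂ} {f : ℂ → MN N} (hf : f ∈ SO X D Λ u B Ω) {l : ℂ} (hl : l ∈ Λ) :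
    (fun z => f (z + l)) ∈ SO X D Λ u B {z | z + l ∈ Ω} := by
  intro K hK hKc δ' ε hδ' hε
  have hcont : Continuous fun z : ℂ => z + l := continuous_id.add continuous_const
  obtain ⟨F, hF, hFd⟩ := hf ((fun z => z + l) '' K) (by rintro _ ⟨z, hz, rfl⟩; exact hK hz) (hKc.image hcont) δ' ε hδ' hε
  refine ⟨fun z => F (z + l), fun z hz => SecAt.shift hl (hF _ ⟨z, hz, rfl⟩), fun z hz hzG => ?_⟩
  exact hFd _ ⟨z, hz, rfl⟩ ((hB.gd_add δ' hl).2 hzG)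

theorem so_lim (hL : SLip X D Λ u B) (𝒰 : Ultrafilter ℕ) (Ω : ℕ → Set ℂ) (F : ℕ → ℂ → MN N) (f : ℂ → MN N)
    (hΩ : ∀ R : ℝ, ∀ᶠ n in (𝒰 : Filter ℕ), ball 0 R ⊆ Ω n) (hF : ∀ᶠ n in (𝒰 : Filter ℕ), F n ∈ SO X D Λ u B (Ω n))
    (hf : ∀ z, z ∉ B → Tendsto (fun n => F n z) 𝒰 (𝓝 (f z))) : f ∈ SO X D Λ u B Set.univ := by
  intro K _ hKc δ' ε hδ' hε
  obtain ⟨R, hR⟩ := hKc.isBounded.subset_closedBall (0 : ℂ)
  have hKn : ∀ z ∈ K, ‖z‖ ≤ R := fun z hz => by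
    have := hR hz
    rwa [mem_closedBall_zero_iff] at this
  obtain ⟨L, hL0, hlip⟩ := so_lip hL hδ' R
  have hbig := hΩ (R + δ' + 1)
  have hgd : ∀ z ∈ Gd B δ', ∀ w ∈ closedBall z (δ' / 2), w ∉ B := fun z hz w hw => gd_notMem (by linarith) (gd_half hz hw)
  have hcl : ∀ z ∈ K, closedBall z δ' ⊆ ball (0 : ℂ) (R + δ' + 1) := by
    intro z hz w hw
    rw [mem_closedBall, dist_eq_norm] at hw
    rw [mem_ball_zero_iff]
    have h1 : w = (w - z) + z := by ring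
    rw [h1]
    refine (norm_add_le _ _).trans_lt ?_
    linarith [hKn z hz]
  have hre : ∀ z ∈ K, |z.re| ≤ R := fun z hz => (Complex.abs_re_le_norm z).trans (hKn z hz)
  have hflip : ∀ z ∈ K, z ∈ Gd B δ' → ∀ w ∈ closedBall z (δ' / 2), dist (f z) (f w) ≤ L * ‖z - w‖ := by
    intro z hzK hz w hw
    refine le_of_tendsto ((hf z (gd_notMem hδ' hz)).dist (hf w (hgd z hz w hw))) ?_
    filter_upwards [hF, hbig] with n hn hn2 using hlip (Ω n) (F n) hn z hz (hre z hzK) ((hcl z hzK).trans hn2) w hw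
  have hcomp : IsCompact (K ∩ Gd B δ') := hKc.inter_right (isClosed_gd δ')
  have hs : 0 < min (δ' / 2) (ε / (8 * L)) := by positivity
  obtain ⟨t, htS, htf, hcov⟩ := hcomp.finite_cover_balls hs
  have hev : ∀ᶠ n in (𝒰 : Filter ℕ), (F n ∈ SO X D Λ u B (Ω n) ∧ ball 0 (R + δ' + 1) ⊆ Ω n) ∧ ∀ y ∈ t, dist (F n y) (f y) < ε / 8 := by
    refine (hF.and hbig).and ((Filter.eventually_all_finite htf).2 fun y hy => ?_)
    exact (Metric.tendsto_nhds.1 (hf y (gd_notMem hδ' (htS hy).2))) (ε / 8) (by linarith)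
  obtain ⟨n, ⟨hn, hnb⟩, hnt⟩ := hev.exists
  obtain ⟨G, hG, hGd⟩ := hn K (fun z hz => hnb (hcl z hz (mem_closedBall_self hδ'.le))) hKc δ' (ε / 2) hδ' (by linarith)
  refine ⟨G, hG, fun z hz hzG => ?_⟩
  have h1 := hGd z hz hzG
  obtain ⟨y, hyt, hzy⟩ : ∃ y ∈ t, z ∈ ball y (min (δ' / 2) (ε / (8 * L))) := by
    have h2 := hcov ⟨hz, hzG⟩
    obtain ⟨y, hy, hzy⟩ := Set.mem_iUnion₂.1 h2
    exact ⟨y, hy, hzy⟩
  have hzy' : z ∈ closedBall y (δ' / 2) := ball_subset_closedBall (ball_subset_ball (min_le_left _ _) hzy)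
  obtain ⟨hyK, hy⟩ := htS hyt
  have hyz : ‖y - z‖ ≤ ε / (8 * L) := by
    rw [mem_ball, dist_comm, dist_eq_norm] at hzy
    exact hzy.le.trans (min_le_right _ _)
  have hLz : L * ‖y - z‖ ≤ ε / 8 := by
    calc L * ‖y - z‖ ≤ L * (ε / (8 * L)) := mul_le_mul_of_nonneg_left hyz hL0.le
      _ = ε / 8 := by field_simp
  have h3 := hlip (Ω n) (F n) hn y hy (hre y hyK) ((hcl y hyK).trans hnb) z hzy'
  have h4 := hflip y hyK hy z hzy'
  have h5 := hnt y hyt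
  have h6 : dist (F n z) (f z) ≤ dist (F n z) (F n y) + dist (F n y) (f y) + dist (f y) (f z) :=
    dist_triangle4 _ _ _ _
  rw [dist_comm (F n z) (F n y)] at h6
  have h7 := dist_triangle (pr (G z)) (F n z) (f z)
  linarith

end Pool.Agent.H87.LV
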