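import Pool.Agent.EG.LE.Defs
import Pool.Agent.H87.LU.Ends

/-!
# LV Refl: the reflection `z ↦ -z`, `u ↦ -u`
-/

set_option autoImplicit false

open Topology Filter Metric

namespace Pool.Agent.H87.LV

open Pool.Agent.H36.BP (EN)
open Pool.Agent.H14.PP (Tan)
open Pool.Agent.H62.EF (MN pr)
open Pool.Agent.H62.EL (TForm)
open Pool.Agent.EG.LE (SecOn TT)
open Pool.Agent.H87.LU (rfT rfI)

variable {N : ℕ} {V : Set (EN N)} {Λ : AddSubgroup ℂ} {u : EN N → ℂ}

theorem neg_mem_iff {a z : ℂ} : -a - z ∈ Λ ↔ a - -z ∈ Λ := by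
  have h : -a - z = -(a - -z) := by ring
  rw [h]
  exact Λ.neg_mem_iff

/-- the reflected form -/
noncomputable def _root_.Pool.Agent.H62.EL.TForm.refl (α : TForm V Λ u) : TForm V Λ (fun x => -u x) where
  toFun := fun z x v w => -α.toFun (-z) x v w
  add_smul := fun z x hx hz v w hv hw a b => by
    rw [α.add_smul (-z) x hx (neg_mem_iff.1 hz) v w hv hw a b]
  det := fun z x hx hz v w hv hw a b c d => by
    rw [α.det (-z) x hx (neg_mem_iff.1 hz) v w hv hw a b c d]
    ring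
  scale := fun z x hx hz v w hv hw c hc => by
    rw [α.scale (-z) x hx (neg_mem_iff.1 hz) v w hv hw c hc]
  analytic := fun φ υ p hφ hυ h => by
    have h1 := α.analytic φ (fun y => -υ y) p hφ hυ.neg (by
      filter_upwards [h] with y hy
      exact ⟨hy.1, neg_mem_iff.1 hy.2⟩)
    exact h1.neg

theorem neg_ball (c : ℂ) (R : ℝ) : {z : ℂ | -z ∈ ball c R} = ball (-c) R := by
  ext z
  rw [Set.mem_setOf_eq, mem_ball, mem_ball, dist_eq_norm, dist_eq_norm]
  have h : -z - c = -(z - -c) := by ring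
  rw [h, norm_neg]

/-- the sections over the reflected domain -/
theorem secOn_refl {U : Set (EN N)} {Ω : Set ℂ} {F : ℂ → EN N} (h : SecOn U Λ u {z | -z ∈ Ω} F) : SecOn U Λ (fun x => -u x) Ω (fun z => F (-z)) := by
  refine ⟨?_, fun z hz => ?_⟩
  · refine h.1.comp differentiable_neg.differentiableOn fun z hz => ?_
    show -(-z) ∈ Ω
    rwa [neg_neg]
  · have h1 := h.2 (-z) (by
      show -(-z) ∈ Ω
      rwa [neg_neg])
    exact ⟨h1.1, neg_mem_iff.2 h1.2⟩

theorem secOn_refl' {U : Set (EN N)} {Ω : Set ℂ} {F : ℂ → EN N} (h : SecOn U Λ (fun x => -u x) Ω F) : SecOn U Λ u {z | -z ∈ Ω} (fun z => F (-z)) := by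
  refine ⟨?_, fun z hz => ?_⟩
  · exact h.1.comp differentiable_neg.differentiableOn fun z hz => hz
  · have h1 := h.2 (-z) hz
    refine ⟨h1.1, ?_⟩
    have h2 := neg_mem_iff.1 h1.2
    rwa [neg_neg] at h2

theorem tt_refl (U : Set (EN N)) : TT U Λ (fun x => -u x) = rfT (TT U Λ u) := by
  funext Ω
  ext f
  constructor
  · rintro ⟨F, hF, hf⟩
    refine ⟨fun z => F (-z), secOn_refl' hF, fun z hz => ?_⟩
    exact hf (-z) hz
  · rintro ⟨F, hF, hf⟩
    refine ⟨fun z => F (-z), secOn_refl hF, fun z hz => ?_⟩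
    have h1 := hf (-z) (by
      show -(-z) ∈ Ω
      rwa [neg_neg])
    simpa only [neg_neg] using h1

end Pool.Agent.H87.LV
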