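import Pool.Agent.H18.LU.GlL
import Pool.Agent.H87.LV.Refl

/-!
# LV UdA: the middle part and the approximation, for the family `TT (X \ D)` of the true sections
-/

set_option autoImplicit false

open Topology Filter Metric

namespace Pool.Agent.H87.LV

open Pool.Agent.H36.BP (EN fs wd IsGermChart)
open Pool.Agent.H14.PP (IsCone Chart Tan CurveAt)
open Pool.Agent.H62.EF (Lat MN pr TorusMap Sec Charts DU)
open Pool.Agent.H62.EL (Ag BadSet IsNC TForm Mon mo Cap IRel II Per VanZero Thin Zr)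
open Pool.Agent.H18.LU (SecAt SO Nb part LFib LData CstL HasCap HasRel)
open Pool.Agent.EG.LE (SecOn TT)
open Pool.Agent.H87.LU (UDyn Mid Appr Sh)

variable {N : ℕ} {X D P : Set (EN N)} {Λ Γ : AddSubgroup ℂ} {u : EN N → ℂ} {B : Set ℂ} {δ : ℝ}

theorem secOn_secAt {Ω : Set ℂ} (hΩ : IsOpen Ω) {F : ℂ → EN N} (h : SecOn (X \ D) Λ u Ω F) {z : ℂ} (hz : z ∈ Ω) : SecAt X D Λ u F z := by
  refine ⟨h.1.analyticAt (hΩ.mem_nhds hz), ?_⟩
  filter_upwards [hΩ.mem_nhds hz] with w hw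
  obtain ⟨⟨h1, h2⟩, h3⟩ := h.2 w hw
  exact ⟨h1, h2, h3⟩

theorem secAt_secOn {Ω : Set ℂ} {F : ℂ → EN N} (h : ∀ z ∈ Ω, SecAt X D Λ u F z) : SecOn (X \ D) Λ u Ω F := by
  refine ⟨fun z hz => (h z hz).1.differentiableAt.differentiableWithinAt, fun z hz => ?_⟩
  obtain ⟨h1, h2, h3⟩ := (h z hz).2.self_of_nhds
  exact ⟨⟨h1, h2⟩, h3⟩

theorem secOn_mono {U : Set (EN N)} {Ω Ω' : Set ℂ} {F : ℂ → EN N} (h : SecOn U Λ u Ω F) (hΩ : Ω' ⊆ Ω) : SecOn U Λ u Ω' F :=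
  ⟨h.1.mono hΩ, fun z hz => h.2 z (hΩ hz)⟩

theorem tt_mono {U : Set (EN N)} {Ω Ω' : Set ℂ} (hΩ : Ω' ⊆ Ω) : TT U Λ u Ω ⊆ TT U Λ u Ω' := by
  rintro f ⟨F, hF, hf⟩
  exact ⟨F, secOn_mono hF hΩ, fun z hz => hf z (hΩ hz)⟩

theorem secOn_so {Ω : Set ℂ} (hΩ : IsOpen Ω) {F : ℂ → EN N} (hF : SecOn (X \ D) Λ u Ω F) {f : ℂ → MN N} (hf : ∀ z ∈ Ω, f z = pr (F z)) :
    f ∈ SO X D Λ u B Ω := by
  intro K hK _ δ' ε _ hε
  refine ⟨F, fun z hz => secOn_secAt hΩ hF (hK hz), fun z hz _ => ?_⟩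
  rw [hf z (hK hz), dist_self]
  exact hε

theorem tt_so {Ω : Set ℂ} (hΩ : IsOpen Ω) {f : ℂ → MN N} (hf : f ∈ TT (X \ D) Λ u Ω) : f ∈ SO X D Λ u B Ω := by
  obtain ⟨F, hF, hf⟩ := hf
  exact secOn_so hΩ hF hf

theorem so_anti {Ω Ω' : Set ℂ} (h : Ω' ⊆ Ω) : SO X D Λ u B Ω ⊆ SO X D Λ u B Ω' := fun _ hf K hK => hf K (hK.trans h)

theorem gd_eq (B : Set ℂ) (δ' : ℝ) : Pool.Agent.H87.LU.Gd B δ' = Pool.Agent.H62.EL.Gd B δ' := rfl

theorem isOpen_strip (W : ℝ) : IsOpen {z : ℂ | |z.re| < W} :=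
  isOpen_lt (continuous_abs.comp Complex.continuous_re) continuous_const

/-- the function `J` in the middle -/
theorem mid_of (E : LData X D P Λ Γ u B δ) {α : TForm (X \ P) Λ u} {R r₁ ε ε₀ C W : ℝ} (hc : CstL D B δ R α r₁ ε ε₀ C)
    (hR : ∀ z : ℂ, |z.re| ≤ W → z ∈ Nb Λ R) (hBW : ∀ b ∈ B, |b.re| + 4 * δ ≤ W) :
    Mid (TT (X \ D) Λ u) (II α ε) B δ W ε₀ (r₁ + 6 * δ) C := by
  intro c R' hcre f hf g hg hcl
  obtain ⟨F, hF, hfF⟩ := hf
  obtain ⟨G, hG, hgG⟩ := hg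
  have hδ := E.bad.pos
  obtain ⟨J, hJ1, hJ2, hJ3⟩ := Pool.Agent.H18.LU.exists_J E hc (V := {z : ℂ | |z.re| < W}) (C' := {z : ℂ | |z.re| ≤ W}) (isOpen_strip W)
    (fun z (hz : |z.re| < W) => (le_of_lt hz : |z.re| ≤ W)) hR (fun z _ b hb _ w hw => by
      rw [mem_closedBall, dist_eq_norm] at hw
      have h1 := (Complex.abs_re_le_norm (w - b)).trans hw
      rw [Complex.sub_re] at h1
      have h2 := hBW b hb
      have h3 : |w.re| ≤ |b.re| + |w.re - b.re| := by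
        have h4 := abs_add_le b.re (w.re - b.re)
        have h5 : b.re + (w.re - b.re) = w.re := by ring
        rwa [h5] at h4
      show |w.re| ≤ W
      linarith) (c := c) (R' := R') (F := F) (G := G)
    (fun z hz => ⟨secOn_secAt isOpen_ball hF hz, secOn_secAt isOpen_ball hG hz⟩) (fun z hz hzG hzC => by
      rw [← hfF z hz, ← hgG z hz]
      exact hcl z hz hzG hzC)
  have hsub : ∀ z ∈ ball c (R' - (r₁ + 6 * δ)), z ∈ ball c (R' - r₁ - 6 * δ) := by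
    intro z hz
    rw [mem_ball] at hz ⊢
    linarith
  have hsub2 : ∀ z ∈ ball c (R' - (r₁ + 6 * δ)), z ∈ ball c R' := by
    intro z hz
    have hr₁ := hc.r₁_pos
    rw [mem_ball] at hz ⊢
    linarith
  refine ⟨J, hJ1.mono fun z hz => ⟨hz.2, hsub z hz.1⟩, fun z hz hzW => hJ2 z ⟨hzW, hsub z hz⟩, fun z hz hzG hzW => ?_⟩
  rw [hJ3 z ⟨hzW, hsub z hz⟩ hzG, hfF z (hsub2 z hz), hgG z (hsub2 z hz)]

/-- the members of `SO` are limits of true sections -/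
theorem appr_of (E : LData X D P Λ Γ u B δ) {α : TForm (X \ P) Λ u} {R r₁ ε ε₀ C W : ℝ} (hc : CstL D B δ R α r₁ ε ε₀ C)
    (hR : ∀ z : ℂ, |z.re| ≤ W → z ∈ Nb Λ R) : Appr (TT (X \ D) Λ u) (SO X D Λ u B) (II α ε) B δ W (ε₀ / 2) r₁ where
  appr := by
    intro c R R' ε δ' hcre hRR' hε hδ' f hf
    obtain ⟨F, hF, hFd⟩ := hf (closedBall c R') (closedBall_subset_ball hRR') (isCompact_closedBall c R') δ' ε hδ' hε
    refine ⟨fun z => pr (F z), ⟨F, secAt_secOn fun z hz => hF z (ball_subset_closedBall hz), fun z _ => rfl⟩, fun z hz hzG => ?_⟩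
    exact hFd z (ball_subset_closedBall hz) hzG
  cont := by
    intro c R' hcre f hf g hg z hz hzG hzW hfg η hη
    have hδ := E.bad.pos
    have hsub : ∀ {R'' : ℝ}, z ∈ ball c (R'' - r₁) → ball z r₁ ⊆ ball c R'' := by
      intro R'' h
      rw [mem_ball] at h
      exact ball_subset_ball' (by linarith)
    obtain ⟨κ, hκ, hκ'⟩ := Pool.Agent.H18.LU.II_approx E hc (z := z) (fun b hb => by
      have := hzG b hb
      linarith) (hR z hzW) (so_anti (hsub hz) hf) (so_anti (hsub hz) hg) hfg hη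
    refine ⟨κ, hκ, fun R'' F G hF hG hz' hFf hGg => ?_⟩
    exact hκ' F (so_anti (hsub hz') (tt_so isOpen_ball hF)) G (so_anti (hsub hz') (tt_so isOpen_ball hG)) hFf hGg

end Pool.Agent.H87.LV
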