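import Pool.Agent.H18.LU.NrL
import Pool.Agent.H18.LU.IzL
import Pool.Agent.H87.LV.UdA
import Pool.Agent.H87.LV.So

/-!
# LV UdC: the fields of `UDyn`
-/

set_option autoImplicit false

open Topology Filter Metric

namespace Pool.Agent.H87.LV

open Pool.Agent.H36.BP (EN fs wd IsGermChart)
open Pool.Agent.H14.PP (IsCone Chart Tan CurveAt)
open Pool.Agent.H62.EF (Lat MN pr TorusMap Sec Charts DU)
open Pool.Agent.H62.EL (Ag BadSet IsNC TForm Mon mo Cap IRel II Per VanZero Thin Zr)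
open Pool.Agent.H18.LU (SecAt SO Nb part LFib LData CstL HasCap HasRel)
open Pool.Agent.EG.LE (SecOn TT)
open Pool.Agent.H87.LU (UDyn Mid Appr Sh)

variable {N : ℕ} {X D P : Set (EN N)} {Λ Γ : AddSubgroup ℂ} {u : EN N → ℂ} {B : Set ℂ} {δ : ℝ}

/-- the field `iso` -/
theorem iso_of (E : LData X D P Λ Γ u B δ) {α : TForm (X \ P) Λ u} (hthin : Thin α) {R r₁ ε ε₀ C W : ℝ} (hc : CstL D B δ R α r₁ ε ε₀ C)
    (hR0 : 0 ≤ R) (hW : 4 * δ ≤ W) {e : ℂ → MN N} (he : e ∈ SO X D Λ u B Set.univ) :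
    ∃ (z₀ : ℂ) (r ε' : ℝ), 0 < r ∧ 0 < ε' ∧ ball z₀ r ⊆ Pool.Agent.H87.LU.Gd B (2 * δ) ∩ {z | |z.re| ≤ W} ∧
      ∀ Ω : Set ℂ, IsOpen Ω → Convex ℝ Ω → ball z₀ r ⊆ Ω → ∀ g ∈ SO X D Λ u B Ω, ∀ z ∈ ball z₀ r, dist (g z) (e z) < ε' →
        (II α ε z (e z) (g z) = 0 ∨ Zr α z (g z)) → g z = e z := by
  have hδ := E.bad.pos
  obtain ⟨z₀, r', ε', hr', hε', hball, hiso⟩ := Pool.Agent.H18.LU.iso_zrL E hthin (δ' := 2 * δ) (r := 3 * ε) (by linarith) le_rfl hc.ε_pos hR0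
    hc.r₁_pos (by linarith [hc.ε_pos]) (Pool.Agent.H18.LU.cap_mono' hc.cap (by linarith) le_rfl le_rfl le_rfl) he
  have hgd : ∀ z ∈ ball (0 : ℂ) (2 * δ), z ∈ Pool.Agent.H62.EL.Gd B (2 * δ) ∧ |z.re| ≤ W := by
    intro z hz
    rw [mem_ball_zero_iff] at hz
    refine ⟨fun b hb => ?_, ?_⟩
    · have h1 := E.zero b hb
      have h2 : ‖b‖ ≤ ‖z - b‖ + ‖z‖ := by
        have h3 : b = z - (z - b) := by ring
        calc ‖b‖ = ‖z - (z - b)‖ := by rw [← h3]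
          _ ≤ ‖z‖ + ‖z - b‖ := norm_sub_le _ _
          _ = _ := add_comm _ _
      linarith
    · exact (Complex.abs_re_le_norm z).trans (by linarith)
  have hz₀ : z₀ ∈ ball (0 : ℂ) (2 * δ) := hball (mem_ball_self hr')
  have hz₀B : z₀ ∉ B := Pool.Agent.H62.EL.gd_notMem (by linarith) (hgd z₀ hz₀).1
  obtain ⟨x₀, hx₀, hx₀z, hx₀e⟩ := Pool.Agent.H18.LU.so_lift_at E isOpen_univ he (Set.mem_univ z₀) hz₀B
  have hx₀P : x₀ ∉ P := fun h => Pool.Agent.H18.LU.so_notP E he hz₀B ⟨x₀, h, hx₀e⟩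
  obtain ⟨ρ, hρ, hρP⟩ := Pool.Agent.H18.LU.pr_closed E.cone E.P_smul (E.P_sub.trans E.D_sub) hx₀ (E.P_closed x₀ hx₀ hx₀P)
  have hcont := Pool.Agent.H18.LU.so_cont E isOpen_univ he (Set.mem_univ z₀) hz₀B
  have h1 : ∀ᶠ z in 𝓝 z₀, dist (e z) (e z₀) < ρ / 2 := Metric.tendsto_nhds.1 hcont _ (by linarith)
  obtain ⟨r₂, hr₂, hr₂'⟩ := Metric.eventually_nhds_iff_ball.1 h1
  refine ⟨z₀, min r' r₂, min ε' (ρ / 2), lt_min hr' hr₂, lt_min hε' (by linarith), ?_, ?_⟩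
  · exact fun z hz => hgd z (hball (ball_subset_ball (min_le_left _ _) hz))
  · intro Ω hΩ _ hΩb g hg z hz hd hzr
    have hz' := ball_subset_ball (min_le_left _ _) hz
    have hzB : z ∉ B := Pool.Agent.H62.EL.gd_notMem (by linarith) (hgd z (hball hz')).1
    obtain ⟨x, hx, hxz, hxg⟩ := Pool.Agent.H18.LU.so_lift_at E hΩ hg (hΩb hz) hzB
    have hxP : x ∉ P := by
      intro hxP
      have h2 := hρP x hxP
      rw [hxg, hx₀e] at h2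
      have h3 := hr₂' z (ball_subset_ball (min_le_right _ _) hz)
      have h4 := hd.trans_le (min_le_right _ _)
      have h5 := dist_triangle (g z) (e z) (e z₀)
      linarith
    rw [← hxg] at hd hzr ⊢
    exact hiso z hz' x ⟨hx, hxP⟩ hxz (hd.trans_le (min_le_left _ _)) hzr

theorem udyn_of (E : LData X D P Λ Γ u B δ) {p : ℝ} (hp : 0 < p) (hpΓ : (p : ℂ) * Complex.I ∈ Γ)
    (hNb : ∀ R' : ℝ, ∃ R'' : ℝ, ∀ z : ℂ, |z.re| ≤ R' → z ∈ Nb Λ R'') {α : TForm (X \ P) Λ u} (hper : Per α Γ) (hthin : Thin α)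
    {R r₁ ε ε₀ C W : ℝ} (hc : CstL D B δ R α r₁ ε ε₀ C) (hR0 : 0 ≤ R) (hR : ∀ z : ℂ, |z.re| ≤ W → z ∈ Nb Λ R) (hBW : ∀ b ∈ B, |b.re| + 4 * δ ≤ W)
    (hW : 4 * δ ≤ W)
    (hJ : ∃ (ε₀ r₁ C : ℝ) (k : ℕ) (a : ℂ), 0 < ε₀ ∧ 0 < r₁ ∧ 0 ≤ C ∧ ∀ (c : ℂ) (R : ℝ), c.re = 0 → r₁ < R → ∀ f ∈ SO X D Λ u B (ball c R),
      ∀ g ∈ SO X D Λ u B (ball c R), (∀ z ∈ ball c R, z ∈ Pool.Agent.H87.LU.Gd B δ → |z.re| ≤ W → dist (f z) (g z) ≤ ε₀) →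
      ∃ J : ℂ → ℂ, DifferentiableOn ℂ J (ball c (R - r₁)) ∧ (∀ z ∈ ball c (R - r₁), ‖J z‖ ≤ C * (1 + R) ^ k) ∧
        (∀ z ∈ ball c (R - r₁), z ∈ Pool.Agent.H87.LU.Gd B (2 * δ) → |z.re| < W → J z = II α ε z (f z) (g z)) ∧
        ∀ l : ℤ, a + p * l * Complex.I ∈ ball c (R - r₁) → J (a + p * l * Complex.I) = 0) :
    UDyn (KN N) p B δ W (SO X D Λ u B) (Zr α) (II α ε) := by
  have hδ := E.bad.pos
  have hl : ∀ l : ℤ, (p : ℂ) * l * Complex.I ∈ Γ := by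
    intro l
    have h1 := Γ.zsmul_mem hpΓ l
    rw [zsmul_eq_mul] at h1
    have h2 : (p : ℂ) * l * Complex.I = (l : ℂ) * (p * Complex.I) := by ring
    rw [h2]
    exact h1
  have hne : ∀ x ∈ X, x ≠ 0 := fun x hx => E.cone.ne_zero hx
  have hcap : HasCap X D P Λ u B (2 * δ) R r₁ (3 * ε) := Pool.Agent.H18.LU.cap_mono' hc.cap (by linarith) le_rfl le_rfl le_rfl
  have hrel : HasRel D B α (2 * δ) R r₁ ε ε₀ := Pool.Agent.H18.LU.rel_mono' hc.rel (by linarith) le_rfl le_rfl le_rfl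
  refine
    { compact := isCompact_KN
      p_pos := hp
      δ_pos := hδ
      W_pos := by linarith
      B_inv := fun b hb l => E.bad.inv b hb _ (E.le (hl l))
      B_sep := E.bad.sep
      B_re := hBW
      anti := fun Ω Ω' _ _ _ _ h => so_anti h
      mem := fun Ω _ _ f hf z hz hzB => so_mem hne E.bad hf hz hzB
      lip := ?_
      trans := fun Ω _ _ f hf l => Pool.Agent.H18.LU.so_trans E hf (E.le (hl l))
      lim := fun 𝒰 Ω F f _ hΩ hF hf => Pool.Agent.H18.LU.so_lim E 𝒰 Ω hΩ F f hF hf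
      uniq := fun Ω hΩ hΩc f hf g hg z₀ hz₀ hz₀B h => Pool.Agent.H18.LU.so_uniq E hΩ hΩc hf hg hz₀ hz₀B h
      Z_inv := fun z y => Pool.Agent.H62.EL.zr_per E.le hper hpΓ z y
      Z_lim := ?_
      II_inv := fun z y y' => Pool.Agent.H62.EL.II_per E.vTor E.le hper hpΓ ε z y y'
      near := ?_
      iso := fun e he _ => iso_of E hthin hc hR0 hW he
      J := hJ }
  · intro δ' R' hδ'
    obtain ⟨R'', hR''⟩ := hNb R'
    obtain ⟨L, hL, hlip⟩ := Pool.Agent.H18.LU.so_lip E hδ' R''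
    refine ⟨L, hL, fun Ω _ _ f hf z hz hzR hsub w hw => ?_⟩
    exact hlip Ω f hf z hz (hR'' z hzR) hsub z (mem_closedBall_self (by linarith)) w hw
  · intro 𝒰 Ω F f hf _ hΩ hF hFf z hz hzW hZ
    have hzB : z ∉ B := Pool.Agent.H62.EL.gd_notMem (by linarith : 0 < 2 * δ) hz
    obtain ⟨x, hx, hxz, hxf⟩ := Pool.Agent.H18.LU.so_lift_at E isOpen_univ hf (Set.mem_univ z) hzB
    have hxP : x ∉ P := fun h => Pool.Agent.H18.LU.so_notP E hf hzB ⟨x, h, hxf⟩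
    have h1 := hFf z hzB
    rw [← hxf] at h1 ⊢
    exact Pool.Agent.H18.LU.zr_closedO E.vCone E.vCharts E.vTor E.dsc ⟨hx, hxP⟩ hxz h1 hZ
  · intro 𝒰 Ω F G w f hf _ hΩ hFG hF hG z hz hzW hw h
    exact Pool.Agent.H18.LU.near_zrL E (δ' := 2 * δ) (R := R) (ε₀ := ε₀) (r := 3 * ε) (by linarith) hc.ε₀_pos (by linarith [hc.ε_pos]) hc.r₁_pos
      hcap hrel 𝒰 Ω hΩ F G w hf hz (hR z hzW) hFG hF hG hw (by
        filter_upwards [h] with n hn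
        exact ⟨hn.1, hR _ hn.2.1, hn.2.2.1, hn.2.2.2⟩)

end Pool.Agent.H87.LV
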