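import Pool.Agent.H87.LV.UdB
import Pool.Agent.H87.LV.UdC
import Pool.Agent.H87.LU.JLim
import Pool.Agent.H87.LU.Arm
import Pool.Agent.EG.LE.Der

/-!
# LV Core: the dynamics of the sections of a log surface over `ℂ^*`, at the level of cones
-/

set_option autoImplicit false

open Topology Filter Metric

namespace Pool.Agent.H87.LV

open Pool.Agent.H36.BP (EN fs wd IsGermChart)
open Pool.Agent.H14.PP (IsCone Chart Tan CurveAt)
open Pool.Agent.H62.EF (Lat MN pr TorusMap Sec Charts DU)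
open Pool.Agent.H62.EL (Ag BadSet IsNC TForm Mon mo Cap IRel II Per VanZero Thin Zr)
open Pool.Agent.H18.LU (SecAt SO Nb part LFib LData CstL HasCap HasRel LogP)
open Pool.Agent.EG.LE (SecOn TT HasII Away EndData)
open Pool.Agent.H87.LU (UDyn Mid Appr Sh rfT rfI LEnd HP AgO)

variable {N : ℕ} {X D P : Set (EN N)} {Λ Γ : AddSubgroup ℂ} {u : EN N → ℂ} {B : Set ℂ} {δ : ℝ}

theorem _root_.Pool.Agent.H87.LU.Mid.mono {Y : Type} [MetricSpace Y] {T : Set ℂ → Set (ℂ → Y)} {II : ℂ → Y → Y → ℂ} {δ W ε₀ r₁ C ε₀' r₁' : ℝ}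
    (h : Mid T II B δ W ε₀ r₁ C) (h1 : ε₀' ≤ ε₀) (h2 : r₁ ≤ r₁') : Mid T II B δ W ε₀' r₁' C := by
  intro c R hc f hf g hg hcl
  obtain ⟨J, hJ1, hJ2, hJ3⟩ := h c R hc f hf g hg fun z hz hzG hzW => (hcl z hz hzG hzW).trans h1
  have hsub : ∀ z ∈ ball c (R - r₁'), z ∈ ball c (R - r₁) := fun z hz => ball_subset_ball (by linarith) hz
  exact ⟨J, hJ1.mono fun z hz => ⟨hsub z hz.1, hz.2⟩, fun z hz => hJ2 z (hsub z hz), fun z hz => hJ3 z (hsub z hz)⟩

theorem _root_.Pool.Agent.H87.LU.Appr.mono {Y : Type} [MetricSpace Y] {T S : Set ℂ → Set (ℂ → Y)} {II : ℂ → Y → Y → ℂ} {δ W ε₀ r₁ ε₀' r₁' : ℝ}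
    (h : Appr T S II B δ W ε₀ r₁) (h1 : ε₀' ≤ ε₀) (h2 : r₁ ≤ r₁') : Appr T S II B δ W ε₀' r₁' where
  appr := h.appr
  cont := by
    intro c R hc f hf g hg z hz hzG hzW hfg η hη
    have hsub : ∀ R : ℝ, ball c (R - r₁') ⊆ ball c (R - r₁) := fun R => ball_subset_ball (by linarith)
    obtain ⟨ε, hε, h⟩ := h.cont c R hc f hf g hg z (hsub R hz) hzG hzW (hfg.trans h1) η hη
    exact ⟨ε, hε, fun R' F G hF hG hz' => h R' F G hF hG (hsub R' hz')⟩

/-- every point is near a point of `2 π i ℤ` in the vertical direction -/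
theorem nb_strip (hΛ : ∀ w : ℂ, w ∈ Λ ↔ Complex.exp w = 1) (R : ℝ) (z : ℂ) (hz : |z.re| ≤ R) : z ∈ Nb Λ (R + 4) := by
  refine ⟨2 * Real.pi * (round (z.im / (2 * Real.pi)) : ℤ) * Complex.I, ?_, ?_⟩
  · rw [hΛ, Complex.exp_eq_one_iff]
    exact ⟨round (z.im / (2 * Real.pi)), by ring⟩
  · have hπ := Real.pi_pos
    have h1 := abs_sub_round (z.im / (2 * Real.pi))
    have h2 : |z.im - 2 * Real.pi * (round (z.im / (2 * Real.pi)) : ℤ)| ≤ Real.pi := by
      have h3 : z.im - 2 * Real.pi * (round (z.im / (2 * Real.pi)) : ℤ) = 2 * Real.pi * (z.im / (2 * Real.pi) - (round (z.im / (2 * Real.pi)) : ℤ)) := by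
        field_simp
      rw [h3, abs_mul, abs_of_pos (by positivity : (0 : ℝ) < 2 * Real.pi)]
      nlinarith
    refine (Complex.norm_le_abs_re_add_abs_im _).trans ?_
    have h4 : (z - 2 * Real.pi * (round (z.im / (2 * Real.pi)) : ℤ) * Complex.I).re = z.re := by simp
    have h5 : (z - 2 * Real.pi * (round (z.im / (2 * Real.pi)) : ℤ) * Complex.I).im = z.im - 2 * Real.pi * (round (z.im / (2 * Real.pi)) : ℤ) := by simp
    rw [h4, h5]
    linarith [Real.pi_le_four]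

/-- the abstract situation for the sections of a log surface over `ℂ^*` -/
theorem exists_udyn (E : LData X D P Λ Γ u B δ) {p : ℝ} (hp : 0 < p) (hpΓ : (p : ℂ) * Complex.I ∈ Γ)
    {α : TForm (X \ P) Λ u} (hlog : LogP α) (hper : Per α Γ) (hvan : VanZero α) (hthin : Thin α) {Xb D₀ D₁ : Set (EN N)}
    (h₀ : EndData Xb (X \ P) (X \ D) D₀ Λ u α) (h₁ : EndData Xb (X \ P) (X \ D) D₁ Λ (fun x => -u x) α.refl) {W₁ : ℝ}
    (hB : ∀ b ∈ B, |b.re| ≤ W₁) : ∃ δ' W ε : ℝ, UDyn (KN N) p B δ' W (SO X D Λ u B) (Zr α) (II α ε) := by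
  have hδ := E.bad.pos
  obtain ⟨X₀, hX₀⟩ := Pool.Agent.EG.LE.leftEnd h₀
  obtain ⟨X₁, hX₁⟩ := Pool.Agent.EG.LE.leftEnd h₁
  obtain ⟨T₁, hT0, hT1, hTW, hT5⟩ : ∃ T₁ : ℝ, X₀ ≤ T₁ ∧ X₁ ≤ T₁ ∧ W₁ + 5 ≤ T₁ ∧ 5 ≤ T₁ :=
    ⟨max (max X₀ X₁) (max (W₁ + 5) 5), (le_max_left _ _).trans (le_max_left _ _), (le_max_right _ _).trans (le_max_left _ _),
      (le_max_left _ _).trans (le_max_right _ _), (le_max_right _ _).trans (le_max_right _ _)⟩
  have hR : ∀ z : ℂ, |z.re| ≤ T₁ + 10 → z ∈ Nb Λ (T₁ + 10 + 4) := nb_strip h₀.lat (T₁ + 10)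
  have E₀ := E.mono (lt_min hδ one_pos) (min_le_left δ 1)
  obtain ⟨δ', hδ', hδ'', E', r₁, ε, ε₀, C, hc⟩ := Pool.Agent.H18.LU.exists_cstL E₀ hlog hper (T₁ + 10 + 4)
  have hδ1 : δ' ≤ 1 := hδ''.trans (min_le_right _ _)
  obtain ⟨r₂, K₁, hr₂, hK₁, hK₁X, hK⟩ := away_of E' hδ' (T₁ + 10 + 4)
  have hgdL : ∀ z : ℂ, T₁ ≤ |z.re| → z ∈ Pool.Agent.H62.EL.Gd B δ' := by
    intro z hz b hb
    have h1 := hB b hb
    have h2 := Complex.abs_re_le_norm (z - b)
    rw [Complex.sub_re] at h2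
    have h3 : |z.re| ≤ |z.re - b.re| + |b.re| := by
      have h4 := abs_add_le (z.re - b.re) b.re
      have h5 : z.re - b.re + b.re = z.re := by ring
      rwa [h5] at h4
    linarith
  have hstrip : ∀ z : ℂ, -T₁ - 10 ≤ z.re → z.re ≤ -T₁ → z ∈ Nb Λ (T₁ + 10 + 4) ∧ z ∈ Pool.Agent.H62.EL.Gd B δ' := by
    intro z h1 h2
    have h3 : |z.re| = -z.re := abs_of_nonpos (by linarith)
    exact ⟨hR z (by rw [h3]; linarith), hgdL z (by rw [h3]; linarith)⟩
  have hstrip' : ∀ z : ℂ, -T₁ - 10 ≤ z.re → z.re ≤ -T₁ → -z ∈ Nb Λ (T₁ + 10 + 4) ∧ -z ∈ Pool.Agent.H62.EL.Gd B δ' := by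
    intro z h1 h2
    have h3 : |(-z).re| = -z.re := by
      rw [Complex.neg_re]
      exact abs_of_nonneg (by linarith)
    exact ⟨hR _ (by rw [h3]; linarith), hgdL _ (by rw [h3]; linarith)⟩
  have hr₁ := hc.r₁_pos
  obtain ⟨EL⟩ := hX₀ T₁ hT0 (II α ε) (max r₁ r₂) (lt_max_of_lt_left hr₁) (hasII_left E' hc (le_max_left _ _) hstrip)
    (away_left hK₁ hK₁X (le_max_right _ _) hK hstrip)
  obtain ⟨ER⟩ := hX₁ T₁ hT1 (rfI (II α ε)) (max r₁ r₂) (lt_max_of_lt_left hr₁) (hasII_right E' hc (le_max_left _ _) hstrip')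
    (away_right hK₁ hK₁X (le_max_right _ _) hK hstrip')
  rw [tt_refl] at ER
  have hBW : ∀ b ∈ B, |b.re| + 4 * δ' ≤ T₁ + 10 := fun b hb => by linarith [hB b hb]
  have hM := (mid_of E' hc hR hBW).mono (ε₀' := ε₀ / 2) (r₁' := r₁ + 6 * δ') (by linarith [hc.ε₀_pos]) le_rfl
  have hA := (appr_of E' hc hR).mono (ε₀' := ε₀ / 2) (r₁' := r₁ + 6 * δ') le_rfl (by linarith)
  have hε₀ := hc.ε₀_pos
  have hl : ∀ l : ℤ, (p : ℂ) * l * Complex.I ∈ Γ := by
    intro l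
    have h1 := Γ.zsmul_mem hpΓ l
    rw [zsmul_eq_mul] at h1
    have h2 : (p : ℂ) * l * Complex.I = (l : ℂ) * (p * Complex.I) := by ring
    rw [h2]
    exact h1
  have hJ := Pool.Agent.H87.LU.exists_J (p := p) EL ER hM hA (by linarith) hc.C_nonneg (by linarith) hδ' hδ1 (fun b hb => by linarith [hB b hb])
    (fun b hb l => E'.bad.inv b hb _ (E'.le (hl l))) (fun c c' R R' h => tt_mono h)
    (fun z y y' => Pool.Agent.H62.EL.II_per E'.vTor E'.le hper hpΓ ε z y y') (a := 0) (fun b hb => by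
      have h1 := E'.zero b hb
      rw [zero_sub, norm_neg]
      linarith) (by
      rw [Complex.zero_re, abs_zero]
      linarith) (fun y y' => Pool.Agent.H62.EL.II_zero E'.vTor E'.le hper hvan Γ.zero_mem ε y y')
  refine ⟨δ', T₁ + 10, ε, udyn_of E' hp hpΓ (fun R' => ⟨R' + 4, nb_strip h₀.lat R'⟩) hper hthin hc (by linarith) hR hBW (by linarith) hJ⟩

/-- **The dynamics of the sections.**  The limits of sections over `ℂ` are finitely many, periodic maps, the limits of sections over a half plane are restrictions of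
these maps, and these maps are almost constant on discs of bounded radius far to the left and to the right. -/
theorem core (E : LData X D P Λ Γ u B δ) {p : ℝ} (hp : 0 < p) (hpΓ : (p : ℂ) * Complex.I ∈ Γ)
    {α : TForm (X \ P) Λ u} (hlog : LogP α) (hper : Per α Γ) (hvan : VanZero α) (hthin : Thin α) {Xb D₀ D₁ : Set (EN N)}
    (h₀ : EndData Xb (X \ P) (X \ D) D₀ Λ u α) (h₁ : EndData Xb (X \ P) (X \ D) D₁ Λ (fun x => -u x) α.refl) {W₁ : ℝ}
    (hB : ∀ b ∈ B, |b.re| ≤ W₁) : ∃ (q : ℕ) (𝓕 : Set (ℂ → MN N)), 1 ≤ q ∧ 𝓕.Finite ∧ 𝓕 ⊆ SO X D Λ u B Set.univ ∧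
      (∀ f ∈ SO X D Λ u B Set.univ, ∃ g ∈ 𝓕, ∀ z, z ∉ B → f z = g z) ∧
      (∀ σ ρ : ℝ, σ = 1 ∨ σ = -1 → ∀ f ∈ SO X D Λ u B (HP σ ρ), ∃ g ∈ 𝓕, ∀ z ∈ HP σ ρ, z ∉ B → f z = g z) ∧
      (∀ f ∈ SO X D Λ u B Set.univ, ∀ z, z ∉ B → f (z + p * q * Complex.I) = f z) ∧
      ∀ R ε : ℝ, 0 < ε → ∃ X₀ : ℝ, ∀ f ∈ SO X D Λ u B Set.univ, ∀ z w : ℂ, X₀ < |z.re| → ‖w - z‖ ≤ R → dist (f w) (f z) < ε := by
  obtain ⟨δ', W, ε, U⟩ := exists_udyn E hp hpΓ hlog hper hvan hthin h₀ h₁ hB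
  obtain ⟨𝓕, hfin, hsub, h𝓕⟩ := U.finite
  have hBl : ∀ (n : ℕ) (z : ℂ), z ∉ B → z + p * n * Complex.I ∉ B := by
    intro n z hz h
    have h1 := U.B_inv _ h (-(n : ℤ))
    have h2 : z + p * n * Complex.I + p * ((-(n : ℤ) : ℤ) : ℂ) * Complex.I = z := by
      push_cast
      ring
    rw [h2] at h1
    exact hz h1
  choose! q hq1 hq using fun f (hf : f ∈ SO X D Λ u B Set.univ) => U.period hf
  have hmul : ∀ f ∈ SO X D Λ u B Set.univ, ∀ (n : ℕ) (z : ℂ), z ∉ B → f (z + p * (n * q f : ℕ) * Complex.I) = f z := by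
    intro f hf n
    induction n with
    | zero =>
      intro z _
      simp
    | succ n ih =>
      intro z hz
      have h1 := hq f hf (z + p * (n * q f : ℕ) * Complex.I) (hBl _ z hz)
      rw [ih z hz] at h1
      rw [← h1]
      congr 1
      push_cast
      ring
  have hdvd : ∀ f ∈ 𝓕, q f ∣ ∏ g ∈ hfin.toFinset, q g := fun f hf => Finset.dvd_prod_of_mem q (hfin.mem_toFinset.2 hf)
  refine ⟨∏ g ∈ hfin.toFinset, q g, 𝓕, ?_, hfin, hsub, ?_, ?_, ?_, ?_⟩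
  · exact Nat.one_le_iff_ne_zero.2 (Finset.prod_ne_zero_iff.2 fun g hg => by
      have := hq1 g (hsub (hfin.mem_toFinset.1 hg))
      omega)
  · intro f hf
    obtain ⟨g, hg, hfg⟩ := h𝓕 f hf
    exact ⟨g, hg, fun z hz => hfg z (Set.mem_univ z) hz⟩
  · intro σ ρ hσ f hf
    obtain ⟨G, hG, hfG⟩ := U.arm hσ hf
    obtain ⟨g, hg, hGg⟩ := h𝓕 G hG
    exact ⟨g, hg, fun z hz hzB => (hfG z hz hzB).trans (hGg z (Set.mem_univ z) hzB)⟩
  · intro f hf z hz
    obtain ⟨g, hg, hfg⟩ := h𝓕 f hf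
    obtain ⟨n, hn⟩ := hdvd g hg
    have h1 := hmul g (hsub hg) n z hz
    rw [hfg _ (Set.mem_univ _) (hBl _ z hz), hfg z (Set.mem_univ z) hz, ← h1]
    congr 1
    rw [hn]
    push_cast
    ring
  · intro R ε' hε'
    obtain ⟨r, Y₀, hr, hRr, hL⟩ := Pool.Agent.EG.LE.der_small h₀ R (ε' / 3) (by linarith)
    obtain ⟨r', Y₁, hr', hRr', hR⟩ := Pool.Agent.EG.LE.der_small h₁ R (ε' / 3) (by linarith)
    refine ⟨max (max Y₀ Y₁) (W₁ + r + r' + 1), fun f hf z w hz hw => ?_⟩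
    have hzY0 := ((le_max_left Y₀ Y₁).trans (le_max_left _ (W₁ + r + r' + 1))).trans_lt hz
    have hzY1 := ((le_max_right Y₀ Y₁).trans (le_max_left _ (W₁ + r + r' + 1))).trans_lt hz
    have hzW := (le_max_right (max Y₀ Y₁) (W₁ + r + r' + 1)).trans_lt hz
    have hgd : ∀ y : ℂ, ‖y - z‖ ≤ R → y ∈ Pool.Agent.H62.EL.Gd B 1 := by
      intro y hy b hb
      have h1 := hB b hb
      have h2 := Complex.abs_re_le_norm (y - b)
      rw [Complex.sub_re] at h2
      have h3 := Complex.abs_re_le_norm (y - z)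
      rw [Complex.sub_re] at h3
      have h4 : |z.re| ≤ |y.re - z.re| + |y.re - b.re| + |b.re| := by
        have h5 : z.re = -(y.re - z.re) + (y.re - b.re) + b.re := by ring
        calc |z.re| = |-(y.re - z.re) + (y.re - b.re) + b.re| := by rw [← h5]
          _ ≤ |-(y.re - z.re)| + |y.re - b.re| + |b.re| := abs_add_three _ _ _
          _ = _ := by rw [abs_neg]
      linarith
    have hR0 : 0 ≤ R := (norm_nonneg _).trans hw
    have hmax : r ≤ r + r' ∧ r' ≤ r + r' := ⟨by linarith, by linarith⟩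
    obtain ⟨F, hF, hFd⟩ := hf (closedBall z (r + r')) (Set.subset_univ _) (isCompact_closedBall _ _) 1 (ε' / 3) one_pos (by linarith)
    have hzc : z ∈ closedBall z (r + r') := mem_closedBall_self (by linarith)
    have hwc : w ∈ closedBall z (r + r') := by
      rw [mem_closedBall, dist_eq_norm]
      linarith
    have h1 := hFd z hzc (hgd z (by rw [sub_self, norm_zero]; exact hR0))
    have h2 := hFd w hwc (hgd w hw)
    have h3 : dist (pr (F w)) (pr (F z)) < ε' / 3 := by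
      rcases le_total z.re 0 with hre | hre
      · rw [abs_of_nonpos hre] at hzY0
        have hsec : SecOn (X \ D) Λ u (ball z r) F := secAt_secOn fun y hy =>
          hF y (closedBall_subset_closedBall hmax.1 (ball_subset_closedBall hy))
        exact (hL z F (by linarith) hsec w (by rw [mem_closedBall, dist_eq_norm]; exact hw)).2
      · rw [abs_of_nonneg hre] at hzY1
        have hsec : SecOn (X \ D) Λ u (ball z r') F := secAt_secOn fun y hy =>
          hF y (closedBall_subset_closedBall hmax.2 (ball_subset_closedBall hy))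
        have hsec' : SecOn (X \ D) Λ (fun x => -u x) (ball (-z) r') (fun y => F (-y)) := by
          refine secOn_refl ?_
          rwa [neg_ball, neg_neg]
        have h4 := (hR (-z) (fun y => F (-y)) (by rw [Complex.neg_re]; linarith) hsec' (-w) (by
          rw [mem_closedBall, dist_eq_norm]
          have h5 : -w - -z = -(w - z) := by ring
          rw [h5, norm_neg]
          exact hw)).2
        simpa only [neg_neg] using h4
    have h4 := dist_triangle4 (f w) (pr (F w)) (pr (F z)) (f z)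
    have h5 : dist (f w) (pr (F w)) = dist (pr (F w)) (f w) := dist_comm _ _
    linarith

end Pool.Agent.H87.LV
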