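import Pool.Agent.H87.LV.EndT

/-!
# LV EndU: the bound of the form in the charts over `0` and `∞`; the charts of `EndData`
-/

set_option autoImplicit false

open Topology Filter Metric

noncomputable section

namespace Pool.Agent.H87.LV

open Pool.Agent.H17 (PN HolomorphicInto)
open Pool.Agent.H36.BP (EN coneOf coneOf_smul ne_zero_of_ofLp ofLp_ne_zero IsGermChart)
open Pool.Agent.H4.LU (Mem val IsParam IsInner IsHorChart IsEndChart IsEnd IsRegularEnd IsModel Over IsTangent IsLogForm)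
open Pool.Agent.H62.EL (TForm)
open Pool.Agent.H14.PP (jac)
open Pool.Agent.EG.LE (cf cf_change Lp Typ IsEndT)
open Pool.Agent.EG.RL (rot)
open Pool.Agent.H6.LU

variable {M : ℕ} {Y V : Set (PN M)} {e : PN M → ℂ} {m : ℕ} {Ω : ℂ → (Fin (M + 1) → ℂ) → (Fin (M + 1) → ℂ) → (Fin (M + 1) → ℂ) → ℂ}
  {P : Set (EN M)} {a : ℂ}

/-- membership in the period group -/
theorem lam_iff {ε : ℂ} (hε : ε = 1 ∨ ε = -1) {w t : ℂ} : w - t ∈ Lam ↔ Complex.exp (ε * w) = Complex.exp (ε * t) := by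
  rw [sub_mem_Lam]
  rcases hε with rfl | rfl
  · rw [one_mul, one_mul]
  · rw [neg_one_mul, neg_one_mul, Complex.exp_neg, Complex.exp_neg, inv_inj]

/-- the bound of the form in an end chart -/
theorem endB (h : IsModel Y V e) (hΩ : IsLogForm Y V e m Ω) (a : ℂ) {α' : TForm (XX Y V e \ P) Lam (uu V e a)}
    (hal : ∀ z, ∀ x ∈ XX Y V e, x ∉ DH Y V e → ∀ v w, α'.toFun z x v w = (tf h hΩ a (XX_diff h)).toFun z x v w)
    {e' : PN M → ℂ} {ε : ℂ} (he : EE e e' ε) {k : ℕ} {nd hor : Bool} {σ₀ : ℂ × ℂ → Fin (M + 1) → ℂ} {τ₀ : (Fin (M + 1) → ℂ) → ℂ × ℂ} {y : PN M}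
    {c : ℂ} (hc : c ≠ 0) (hch : IsEndChart Y V e' k nd hor σ₀ τ₀ y) {ex : Bool} (hnd : nd = true → ex = true) (hex : ex = true → (nd || hor) = true)
    (hP : ∀ᶠ p in 𝓝 (0 : ℂ × ℂ), c • lp M (σ₀ p) ∈ XX Y V e \ P ↔ p.1 ≠ 0 ∧ (ex = true → p.2 ≠ 0)) :
    ∃ C : ℝ, ∀ᶠ p in 𝓝 (0 : ℂ × ℂ), Lp ex p ≠ 0 → ∀ t : ℂ, uu V e a (c • lp M (σ₀ p)) - t ∈ Lam →
      ‖Lp ex p * cf α' (fun p => c • lp M (σ₀ p)) t p‖ ≤ C := by
  have hE := ech_of_end (x := c • lp M (σ₀ 0)) hch hc rfl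
  have hF := endF h a he hE
  obtain ⟨C₀, hC₀, hbd⟩ := end_bound h hΩ a (XX_diff h) he hch hc
  have hcf : ∀ p : ℂ × ℂ, c • lp M (σ₀ p) ∈ coneOf V → ∀ t : ℂ, cf α' (fun p => c • lp M (σ₀ p)) t p =
      cf (tf h hΩ a (XX_diff h)) (fun p => c • lp M (σ₀ p)) t p := by
    intro p hp t
    unfold cf
    exact hal t _ (V_sub_XX h hp) (fun h1 => h1.2 hp) _ _
  by_cases hcase : ex = true ∨ (nd || hor) = false
  · refine ⟨C₀, ?_⟩
    filter_upwards [hF, hbd] with p h1 h2 hL t ht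
    have hV : c • lp M (σ₀ p) ∈ coneOf V := by
      rw [h1.2.2.1]
      rcases hcase with h3 | h3
      · unfold Lp at hL
        rw [if_pos h3] at hL
        exact ⟨left_ne_zero_of_mul hL, fun _ => right_ne_zero_of_mul hL⟩
      · have h4 : ¬ (nd = true ∨ hor = true) := by
          rw [← Bool.or_eq_true, h3]
          simp
        have h5 : ex ≠ true := by
          intro h6
          have h7 := hex h6
          rw [h3] at h7
          simp at h7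
        unfold Lp at hL
        rw [if_neg h5, mul_one] at hL
        exact ⟨hL, fun h6 => absurd h6 h4⟩
    rw [hcf p hV]
    have h3 := h2 hV t ht
    have h4 : (if nd = true ∨ hor = true then p.1 * p.2 else p.1) = Lp ex p := by
      unfold Lp
      rcases hcase with h5 | h5
      · rw [if_pos h5, if_pos]
        rw [← Bool.or_eq_true]
        exact hex h5
      · have h6 : ¬ (nd = true ∨ hor = true) := by
          rw [← Bool.or_eq_true, h5]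
          simp
        have h7 : ex ≠ true := by
          intro h8
          have h9 := hex h8
          rw [h5] at h9
          simp at h9
        rw [if_neg h6, if_neg h7, mul_one]
    rwa [h4] at h3
  · push Not at hcase
    obtain ⟨hx1, hx2⟩ := hcase
    have hx : ex = false := by simpa using hx1
    have hor' : (nd || hor) = true := Bool.eq_true_of_not_eq_false hx2
    have hnd' : nd = false := by
      by_contra h1
      have h2 : nd = true := by simpa using h1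
      exact hx1 (hnd h2)
    subst hx hnd'
    have hho : hor = true := by simpa using hor'
    subst hho
    obtain ⟨r, hr, hball⟩ := Metric.eventually_nhds_iff_ball.1 (((hF.and hE.gp.σ_an.eventually_analyticAt).and hbd).and hP)
    refine ⟨C₀ / (r / 2), ?_⟩
    filter_upwards [ball_mem_nhds (0 : ℂ × ℂ) (half_pos hr)] with p hp hL t ht
    have hL' : Lp false p = p.1 := by
      unfold Lp
      simp
    rw [hL'] at hL ⊢
    rw [mem_ball_zero_iff, Prod.norm_def, max_lt_iff] at hp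
    have hmem : ∀ s : ℂ, ‖s‖ < r → ((p.1, s) : ℂ × ℂ) ∈ ball (0 : ℂ × ℂ) r := by
      intro s hs
      rw [mem_ball_zero_iff, Prod.norm_def, max_lt_iff]
      exact ⟨by linarith [hp.1], hs⟩
    have hexp : ∀ s : ℂ, ‖s‖ < r → Complex.exp (ε * uu V e a (c • lp M (σ₀ (p.1, s)))) = Complex.exp (-(ε * a)) * p.1 := by
      intro s hs
      have h1 := (hball _ (hmem s hs)).1.1.1
      have h2 := h1.2.2.2 (h1.2.1.2 ⟨hL, fun h3 => by simp at h3⟩)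
      simpa using h2
    have hpp : p = (p.1, p.2) := rfl
    have hexpt : Complex.exp (ε * t) = Complex.exp (-(ε * a)) * p.1 := by
      rw [← (lam_iff he.eps).1 ht, hpp]
      exact hexp p.2 (by linarith [hp.2])
    have hut : ∀ s : ℂ, ‖s‖ < r → uu V e a (c • lp M (σ₀ (p.1, s))) - t ∈ Lam := by
      intro s hs
      rw [lam_iff he.eps, hexp s hs, hexpt]
    have hεε : ε * ε = 1 := by
      rcases he.eps with rfl | rfl <;> norm_num
    -- the function on the line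
    have han : ∀ s : ℂ, ‖s‖ < r → AnalyticAt ℂ (fun s : ℂ => p.1 * cf α' (fun p => c • lp M (σ₀ p)) t (p.1, s)) s := by
      intro s hs
      have hq := hball _ (hmem s hs)
      have hυ : AnalyticAt ℂ (fun q : ℂ × ℂ => t + ε * Complex.log (q.1 / p.1)) (p.1, s) := by
        have h1 : AnalyticAt ℂ (fun q : ℂ × ℂ => q.1 / p.1) (p.1, s) := analyticAt_fst.div analyticAt_const hL
        refine analyticAt_const.add (analyticAt_const.mul (h1.clog ?_))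
        show p.1 / p.1 ∈ Complex.slitPlane
        rw [div_self hL]
        exact Complex.one_mem_slitPlane
      have hev : ∀ᶠ q in 𝓝 ((p.1, s) : ℂ × ℂ), c • lp M (σ₀ q) ∈ XX Y V e \ P ∧ uu V e a (c • lp M (σ₀ q)) - (t + ε * Complex.log (q.1 / p.1)) ∈ Lam := by
        have h1 : ∀ᶠ q : ℂ × ℂ in 𝓝 (p.1, s), q.1 ≠ 0 := continuousAt_fst.eventually_ne hL
        filter_upwards [h1, isOpen_ball.mem_nhds (hmem s hs)] with q hq1 hq2
        have h2 := hball q hq2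
        have h3 : c • lp M (σ₀ q) ∈ XX Y V e := h2.1.1.1.2.1.2 ⟨hq1, fun h4 => by simp at h4⟩
        refine ⟨h2.2.2 ⟨hq1, fun h4 => by simp at h4⟩, ?_⟩
        have h4 := h2.1.1.1.2.2.2 h3
        have h5 : ε * (t + ε * Complex.log (q.1 / p.1)) = ε * t + Complex.log (q.1 / p.1) := by
          rw [mul_add, ← mul_assoc, hεε, one_mul]
        rw [lam_iff he.eps, h4, h5, Complex.exp_add, hexpt, Complex.exp_log (div_ne_zero hq1 hL)]
        simp only [Bool.false_eq_true, if_false, pow_zero, mul_one]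
        field_simp
      have h1 := α'.analytic (fun q => c • lp M (σ₀ q)) (fun q => t + ε * Complex.log (q.1 / p.1)) (p.1, s) hq.1.1.2 hυ hev
      have h2 : AnalyticAt ℂ (fun s' : ℂ => ((p.1, s') : ℂ × ℂ)) s := analyticAt_const.prod analyticAt_id
      have h3 := AnalyticAt.comp (f := fun s' : ℂ => ((p.1, s') : ℂ × ℂ)) h1 h2
      refine analyticAt_const.mul (h3.congr ?_)
      filter_upwards with s'
      show α'.toFun (t + ε * Complex.log (p.1 / p.1)) _ _ _ = cf α' (fun p => c • lp M (σ₀ p)) t (p.1, s')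
      rw [div_self hL, Complex.log_one, mul_zero, add_zero]
      rfl
    have hbs : ∀ s : ℂ, ‖s‖ = r / 2 → ‖p.1 * cf α' (fun p => c • lp M (σ₀ p)) t (p.1, s)‖ ≤ C₀ / (r / 2) := by
      intro s hs
      have hsr : ‖s‖ < r := by
        rw [hs]
        linarith
      have hs0 : s ≠ 0 := by
        rintro rfl
        rw [norm_zero] at hs
        linarith
      have h1 := hball _ (hmem s hsr)
      have hV : c • lp M (σ₀ (p.1, s)) ∈ coneOf V := h1.1.1.1.2.2.1.2 ⟨hL, fun _ => hs0⟩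
      have h2 := h1.1.2 hV t (hut s hsr)
      rw [if_pos (Or.inr rfl)] at h2
      rw [hcf _ hV, le_div_iff₀ (by linarith), ← hs, ← norm_mul]
      have h3 : p.1 * cf (tf h hΩ a (XX_diff h)) (fun p => c • lp M (σ₀ p)) t (p.1, s) * s =
          (p.1, s).1 * (p.1, s).2 * cf (tf h hΩ a (XX_diff h)) (fun p => c • lp M (σ₀ p)) t (p.1, s) := by
        show _ = p.1 * s * _
        ring
      rw [h3]
      exact h2
    have hmax := Complex.norm_le_of_forall_mem_frontier_norm_le (f := fun s : ℂ => p.1 * cf α' (fun p => c • lp M (σ₀ p)) t (p.1, s))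
      (U := ball (0 : ℂ) (r / 2)) (C := C₀ / (r / 2)) (z := p.2) isBounded_ball ?_ ?_ (subset_closure ?_)
    · exact hmax
    · refine DifferentiableOn.diffContOnCl fun s hs => ?_
      have h1 : s ∈ closedBall (0 : ℂ) (r / 2) := closure_ball_subset_closedBall hs
      rw [mem_closedBall_zero_iff] at h1
      exact (han s (by linarith)).differentiableAt.differentiableWithinAt
    · intro s hs
      rw [frontier_ball (0 : ℂ) (by positivity : r / 2 ≠ 0), mem_sphere_zero_iff_norm] at hs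
      exact hbs s hs
    · rw [mem_ball_zero_iff]
      exact hp.2

/-- the scaling of the first coordinate -/
def scl (κ : ℂ) : ℂ × ℂ →L[ℂ] ℂ × ℂ := (κ • ContinuousLinearMap.fst ℂ ℂ ℂ).prod (ContinuousLinearMap.snd ℂ ℂ ℂ)

theorem scl_apply (κ : ℂ) (q : ℂ × ℂ) : scl κ q = (κ * q.1, q.2) := rfl

theorem jac_scl (κ : ℂ) (q : ℂ × ℂ) : jac (scl κ) q = κ := by
  unfold jac
  rw [(scl κ).fderiv, scl_apply, scl_apply]
  simp

theorem scl_tendsto (κ : ℂ) : Tendsto (scl κ) (𝓝 0) (𝓝 0) := by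
  have h1 := (scl κ).continuous.tendsto 0
  rwa [map_zero] at h1

/-- the charts, for both ends -/
theorem endE (h : IsModel Y V e) (hΩ : IsLogForm Y V e m Ω) (a : ℂ) (P_sub : P ⊆ DH Y V e) (P_smul : ∀ x ∈ P, ∀ c : ℂ, c ≠ 0 → c • x ∈ P)
    (P_closed : ∀ x ∈ XX Y V e, x ∉ P → ∀ᶠ y in 𝓝 x, y ∉ P) (P_open : ∀ x ∈ P, ∀ᶠ y in 𝓝 x, y ∈ DH Y V e → y ∈ P)
    {α' : TForm (XX Y V e \ P) Lam (uu V e a)}
    (hal : ∀ z, ∀ x ∈ XX Y V e, x ∉ DH Y V e → ∀ v w, α'.toFun z x v w = (tf h hΩ a (XX_diff h)).toFun z x v w)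
    {e' : PN M → ℂ} {ε : ℂ} (he : EE e e' ε) {k : ℕ} {nd hor : Bool} {σ₀ : ℂ × ℂ → Fin (M + 1) → ℂ} {τ₀ : (Fin (M + 1) → ℂ) → ℂ × ℂ} {y : PN M}
    {c : ℂ} (hc : c ≠ 0) (hch : IsEndChart Y V e' k nd hor σ₀ τ₀ y) :
    ∃ (T : Typ) (σ : ℂ × ℂ → EN M) (τ : EN M → ℂ × ℂ), T.eu = (nd || hor) ∧ AnalyticAt ℂ σ 0 ∧ AnalyticAt ℂ τ (c • lp M (σ₀ 0)) ∧ σ 0 = c • lp M (σ₀ 0) ∧
      (∀ᶠ q in 𝓝 ((1, 0) : ℂ × ℂ × ℂ), τ (q.1 • σ q.2) = (q.2.1 ^ T.k, q.2.2 ^ T.k)) ∧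
      (∀ᶠ p in 𝓝 (0 : ℂ × ℂ), σ p ∈ coneOf Y ∧ (σ p ∈ XX Y V e \ P ↔ p.1 ≠ 0 ∧ (T.ex = true → p.2 ≠ 0)) ∧
        (σ p ∈ XX Y V e \ DH Y V e ↔ p.1 ≠ 0 ∧ (T.eu = true → p.2 ≠ 0)) ∧
        (σ p ∈ XX Y V e \ P → Complex.exp (ε * uu V e a (σ p)) = p.1 * p.2 ^ T.b)) ∧
      (∀ W ∈ 𝓝 (0 : ℂ × ℂ), ∀ᶠ y in 𝓝 (c • lp M (σ₀ 0)), y ∈ coneOf Y → ∃ p ∈ W, ∃ c : ℂ, c ≠ 0 ∧ y = c • σ p) ∧
      (∀ ζ : ℂ, ζ ^ T.k = 1 → ∀ᶠ p in 𝓝 (0 : ℂ × ℂ), ∃ c : ℂ, c ≠ 0 ∧ σ (rot ζ p) = c • σ p) ∧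
      ∃ C : ℝ, ∀ᶠ p in 𝓝 (0 : ℂ × ℂ), Lp T.ex p ≠ 0 → ∀ t : ℂ, Complex.exp t = p.1 * p.2 ^ T.b → ‖Lp T.ex p * cf α' σ (ε * t) p‖ ≤ C := by
  have hE := ech_of_end (x := c • lp M (σ₀ 0)) hch hc rfl
  have hF := endF h a he hE
  obtain ⟨ex, hnd, hex, hP⟩ := exists_ex h a he hE P_sub P_closed P_open
  obtain ⟨C, hC⟩ := endB h hΩ a hal he hc hch hnd hex hP
  set κ : ℂ := Complex.exp (ε * a) with hκ
  have hκ0 : κ ≠ 0 := Complex.exp_ne_zero _
  set σ₁ : ℂ × ℂ → EN M := fun p => c • lp M (σ₀ p) with hσ₁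
  set τ₁ : EN M → ℂ × ℂ := fun x => τ₀ (pl M (c⁻¹ • x)) with hτ₁
  have hgp : GP (coneOf Y) k σ₁ τ₁ (c • lp M (σ₀ 0)) := hE.gp
  have hk := hE.k_pos
  have hx0 : c • lp M (σ₀ 0) ≠ 0 := hE.ne
  have hS := scl_tendsto κ
  have hs0 : scl κ 0 = 0 := map_zero _
  have hεε : ε * ε = 1 := by
    rcases he.eps with rfl | rfl <;> norm_num
  have hb01 : (if nd = true then 1 else 0 : ℕ) ≤ 1 := by
    by_cases hn : nd = true
    · simp [hn]
    · simp [hn]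
  have hσan : AnalyticAt ℂ (fun q => σ₁ (scl κ q)) 0 := by
    have h1 : AnalyticAt ℂ σ₁ (scl κ 0) := by
      rw [hs0]
      exact hgp.σ_an
    exact h1.comp ((scl κ).analyticAt 0)
  refine ⟨⟨ex, (nd || hor), if nd = true then 1 else 0, k, hex, hb01, ?_, hk, ?_⟩, fun q => σ₁ (scl κ q), fun x => (κ⁻¹ ^ k * (τ₁ x).1, (τ₁ x).2), rfl,
    hσan, ?_, ?_, ?_, ?_, ?_, ?_, C, ?_⟩
  · intro hb
    by_cases hn : nd = true
    · exact hnd hn
    · simp [hn] at hb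
  · by_cases hn : nd = true
    · right
      simp [hn]
    · left
      exact hE.nd_k (by simpa using hn)
  · have h1 := hgp.τ_an
    exact (analyticAt_const.mul (analyticAt_fst.comp h1)).prod (analyticAt_snd.comp h1)
  · show σ₁ (scl κ 0) = _
    rw [hs0]
  · -- the coordinates
    have h1 : ∀ᶠ q in 𝓝 ((1, 0) : ℂ × ℂ × ℂ), τ₁ (q.1 • σ₁ (scl κ q.2)) = τ₁ (σ₁ (scl κ q.2)) := by
      have h2 : Tendsto (fun q : ℂ × ℂ × ℂ => (σ₁ (scl κ q.2), q.1)) (𝓝 (1, 0)) (𝓝 (c • lp M (σ₀ 0), 1)) := by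
        have h3 : ContinuousAt (fun q : ℂ × ℂ × ℂ => σ₁ (scl κ q.2)) (1, 0) :=
          ContinuousAt.comp (g := fun q => σ₁ (scl κ q)) (f := fun q : ℂ × ℂ × ℂ => q.2) (x := ((1, 0) : ℂ × ℂ × ℂ)) hσan.continuousAt continuousAt_snd
        have h4 := h3.prodMk (continuousAt_fst : ContinuousAt (fun q : ℂ × ℂ × ℂ => q.1) (1, 0))
        have h5 : (σ₁ (scl κ ((1, 0) : ℂ × ℂ × ℂ).2), ((1, 0) : ℂ × ℂ × ℂ).1) = (c • lp M (σ₀ 0), (1 : ℂ)) := by
          show (σ₁ (scl κ 0), (1 : ℂ)) = _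
          rw [hs0]
        have h6 := h4.tendsto
        rwa [h5] at h6
      exact h2.eventually hgp.inv
    have h2 : ∀ᶠ q in 𝓝 ((1, 0) : ℂ × ℂ × ℂ), τ₁ (σ₁ (scl κ q.2)) = ((scl κ q.2).1 ^ k, (scl κ q.2).2 ^ k) := by
      have h3 : Tendsto (fun q : ℂ × ℂ × ℂ => scl κ q.2) (𝓝 (1, 0)) (𝓝 0) := by
        have h4 : Tendsto (fun q : ℂ × ℂ × ℂ => q.2) (𝓝 (1, 0)) (𝓝 0) := continuous_snd.tendsto _
        exact hS.comp h4
      exact h3.eventually hgp.coord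
    filter_upwards [h1, h2] with q h3 h4
    show (κ⁻¹ ^ k * (τ₁ (q.1 • σ₁ (scl κ q.2))).1, (τ₁ (q.1 • σ₁ (scl κ q.2))).2) = (q.2.1 ^ k, q.2.2 ^ k)
    rw [h3, h4, scl_apply]
    show (κ⁻¹ ^ k * (κ * q.2.1) ^ k, q.2.2 ^ k) = (q.2.1 ^ k, q.2.2 ^ k)
    rw [← mul_pow, ← mul_assoc, inv_mul_cancel₀ hκ0, one_mul]
  · -- the sets
    filter_upwards [hS.eventually hF, hS.eventually hP] with q h1 h2
    have h3 : (scl κ q).1 ≠ 0 ↔ q.1 ≠ 0 := by
      rw [scl_apply]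
      show κ * q.1 ≠ 0 ↔ _
      rw [mul_ne_zero_iff]
      exact ⟨fun h => h.2, fun h => ⟨hκ0, h⟩⟩
    refine ⟨h1.1, ?_, ?_, fun hq => ?_⟩
    · show σ₁ (scl κ q) ∈ _ ↔ _
      rw [h2, h3]
      rfl
    · show σ₁ (scl κ q) ∈ _ ↔ _
      rw [XX_diff h, h1.2.2.1, h3]
      show _ ∧ (_ → q.2 ≠ 0) ↔ q.1 ≠ 0 ∧ ((nd || hor) = true → q.2 ≠ 0)
      rw [Bool.or_eq_true]
    · show Complex.exp (ε * uu V e a (σ₁ (scl κ q))) = q.1 * q.2 ^ (if nd = true then 1 else 0)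
      rw [h1.2.2.2 hq.1, scl_apply]
      show Complex.exp (-(ε * a)) * (κ * q.1 * q.2 ^ _) = _
      rw [Complex.exp_neg, ← hκ]
      field_simp
  · intro W hW
    have h1 : (scl κ⁻¹) ⁻¹' W ∈ 𝓝 (0 : ℂ × ℂ) := scl_tendsto κ⁻¹ hW
    filter_upwards [hgp.near hk hx0 h1 univ_mem] with y hy hyY
    obtain ⟨b, p, hb, -, hp, hyp, -⟩ := hy hyY
    refine ⟨scl κ⁻¹ p, hp, b, hb, ?_⟩
    show y = b • σ₁ (scl κ (scl κ⁻¹ p))
    have h2 : scl κ (scl κ⁻¹ p) = p := by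
      rw [scl_apply, scl_apply]
      show (κ * (κ⁻¹ * p.1), p.2) = p
      rw [← mul_assoc, mul_inv_cancel₀ hκ0, one_mul]
    rw [h2]
    exact hyp
  · intro ζ hζ
    filter_upwards [hS.eventually hgp.quot] with q hq
    obtain ⟨b, hb, h1⟩ := hq ζ hζ
    refine ⟨b, hb, ?_⟩
    show σ₁ (scl κ (rot ζ q)) = b • σ₁ (scl κ q)
    rw [← h1]
    congr 1
    rw [scl_apply, scl_apply]
    show (κ * (ζ * q.1), ζ⁻¹ * q.2) = (ζ * (κ * q.1), ζ⁻¹ * q.2)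
    rw [mul_left_comm]
  · -- the bound
    filter_upwards [hS.eventually hC, hS.eventually hF, hS.eventually hP.eventually_nhds, hS.eventually hgp.σ_an.eventually_analyticAt]
      with q h1 h2 h3 h4 hL t ht
    have hL1 : Lp ex (scl κ q) = κ * Lp ex q := by
      unfold Lp
      rw [scl_apply]
      show κ * q.1 * _ = κ * (q.1 * _)
      ring
    have hL2 : Lp ex (scl κ q) ≠ 0 := by
      rw [hL1]
      exact mul_ne_zero hκ0 hL
    have hq1 : q.1 ≠ 0 := by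
      have h5 : Lp ex q ≠ 0 := hL
      unfold Lp at h5
      exact left_ne_zero_of_mul h5
    have hq2 : ex = true → q.2 ≠ 0 := by
      intro h6
      have h5 : Lp ex q ≠ 0 := hL
      unfold Lp at h5
      rw [if_pos h6] at h5
      exact right_ne_zero_of_mul h5
    have hmem : σ₁ (scl κ q) ∈ XX Y V e \ P := h3.self_of_nhds.2 ⟨by
      rw [scl_apply]
      exact mul_ne_zero hκ0 hq1, hq2⟩
    have hut : uu V e a (σ₁ (scl κ q)) - ε * t ∈ Lam := by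
      rw [lam_iff he.eps, ← mul_assoc, hεε, one_mul, h2.2.2.2 hmem.1, ht, scl_apply]
      show Complex.exp (-(ε * a)) * (κ * q.1 * q.2 ^ _) = _
      rw [Complex.exp_neg, ← hκ]
      field_simp
    have hVev : ∀ᶠ p in 𝓝 (scl κ q), σ₁ p ∈ XX Y V e \ P := by
      have h5 : ∀ᶠ p : ℂ × ℂ in 𝓝 (scl κ q), p.1 ≠ 0 := continuousAt_fst.eventually_ne (by
        rw [scl_apply]
        exact mul_ne_zero hκ0 hq1)
      by_cases h6 : ex = true
      · have h7 : ∀ᶠ p : ℂ × ℂ in 𝓝 (scl κ q), p.2 ≠ 0 := continuousAt_snd.eventually_ne (hq2 h6)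
        filter_upwards [h3, h5, h7] with p h8 h9 h10
        exact h8.2 ⟨h9, fun _ => h10⟩
      · filter_upwards [h3, h5] with p h8 h9
        exact h8.2 ⟨h9, fun h10 => absurd h10 h6⟩
    have hcone : ∀ x ∈ XX Y V e \ P, ∀ c : ℂ, c ≠ 0 → c • x ∈ XX Y V e \ P := by
      rintro x ⟨hx, hxP⟩ b hb
      refine ⟨(ocone_XX Y V e).smul_mem _ hx b hb, fun h5 => hxP ?_⟩
      have h6 := P_smul _ h5 b⁻¹ (inv_ne_zero hb)
      rwa [smul_smul, inv_mul_cancel₀ hb, one_smul] at h6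
    have hcf := cf_change (α := α') (fun h5 => (ocone_XX Y V e).zero_notMem h5.1) hcone (φ := fun q => σ₁ (scl κ q)) (ψ := σ₁) (τ := scl κ) (p := q)
      (t := ε * t) (h4.comp ((scl κ).analyticAt q)) h4 ((scl κ).analyticAt q) hVev hut (Eventually.of_forall fun p => ⟨1, one_ne_zero, (one_smul _ _).symm⟩)
    have h5 := h1 hL2 (ε * t) hut
    show ‖Lp ex q * cf α' (fun q => σ₁ (scl κ q)) (ε * t) q‖ ≤ C
    rw [hcf, jac_scl]
    have h6 : Lp ex q * (cf α' σ₁ (ε * t) (scl κ q) * κ) = Lp ex (scl κ q) * cf α' σ₁ (ε * t) (scl κ q) := by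
      rw [hL1]
      ring
    rw [h6]
    exact h5

/-- **The charts over `0`.** -/
theorem endT_left (h : IsModel Y V e) (hΩ : IsLogForm Y V e m Ω) (a : ℂ) (P_sub : P ⊆ DH Y V e) (P_smul : ∀ x ∈ P, ∀ c : ℂ, c ≠ 0 → c • x ∈ P)
    (P_closed : ∀ x ∈ XX Y V e, x ∉ P → ∀ᶠ y in 𝓝 x, y ∉ P) (P_open : ∀ x ∈ P, ∀ᶠ y in 𝓝 x, y ∈ DH Y V e → y ∈ P)
    {α' : TForm (XX Y V e \ P) Lam (uu V e a)}
    (hal : ∀ z, ∀ x ∈ XX Y V e, x ∉ DH Y V e → ∀ v w, α'.toFun z x v w = (tf h hΩ a (XX_diff h)).toFun z x v w)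
    {k : ℕ} {nd hor : Bool} {σ₀ : ℂ × ℂ → Fin (M + 1) → ℂ} {τ₀ : (Fin (M + 1) → ℂ) → ℂ × ℂ} {y : PN M}
    {c : ℂ} (hc : c ≠ 0) (hch : IsEndChart Y V e k nd hor σ₀ τ₀ y) :
    ∃ T : Typ, T.eu = (nd || hor) ∧ IsEndT (coneOf Y) (XX Y V e \ P) (XX Y V e \ DH Y V e) α' T (c • lp M (σ₀ 0)) := by
  obtain ⟨T, σ, τ, h0, h1, h2, h3, h4, h5, h6, h7, h8⟩ := endE h hΩ a P_sub P_smul P_closed P_open hal (Or.inl ⟨rfl, rfl⟩ : EE e e 1) hc hch
  simp only [one_mul] at h5 h8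
  exact ⟨T, h0, σ, τ, h1, h2, h3, h4, h5, h6, h7, h8⟩

/-- **The charts over `∞`.** -/
theorem endT_right (h : IsModel Y V e) (hΩ : IsLogForm Y V e m Ω) (a : ℂ) (P_sub : P ⊆ DH Y V e) (P_smul : ∀ x ∈ P, ∀ c : ℂ, c ≠ 0 → c • x ∈ P)
    (P_closed : ∀ x ∈ XX Y V e, x ∉ P → ∀ᶠ y in 𝓝 x, y ∉ P) (P_open : ∀ x ∈ P, ∀ᶠ y in 𝓝 x, y ∈ DH Y V e → y ∈ P)
    {α' : TForm (XX Y V e \ P) Lam (uu V e a)}
    (hal : ∀ z, ∀ x ∈ XX Y V e, x ∉ DH Y V e → ∀ v w, α'.toFun z x v w = (tf h hΩ a (XX_diff h)).toFun z x v w)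
    {k : ℕ} {nd hor : Bool} {σ₀ : ℂ × ℂ → Fin (M + 1) → ℂ} {τ₀ : (Fin (M + 1) → ℂ) → ℂ × ℂ} {y : PN M}
    {c : ℂ} (hc : c ≠ 0) (hch : IsEndChart Y V (fun y => (e y)⁻¹) k nd hor σ₀ τ₀ y) :
    ∃ T : Typ, T.eu = (nd || hor) ∧ IsEndT (coneOf Y) (XX Y V e \ P) (XX Y V e \ DH Y V e) α'.refl T (c • lp M (σ₀ 0)) := by
  obtain ⟨T, σ, τ, h0, h1, h2, h3, h4, h5, h6, h7, C, h8⟩ := endE h hΩ a P_sub P_smul P_closed P_open hal
    (Or.inr ⟨rfl, rfl⟩ : EE e (fun y => (e y)⁻¹) (-1)) hc hch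
  simp only [neg_one_mul] at h5 h8
  refine ⟨T, h0, σ, τ, h1, h2, h3, h4, h5, h6, h7, C, ?_⟩
  filter_upwards [h8] with p hp hL t ht
  have h9 := hp hL t ht
  have h10 : cf α'.refl σ t p = -cf α' σ (-t) p := rfl
  rw [h10, mul_neg, norm_neg]
  exact h9

end Pool.Agent.H87.LV
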