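import Pool.Agent.H6.LU.Re
import Pool.Agent.H87.LV.Refl
import Pool.Agent.H87.LV.Uniq

/-!
# LV EndT: the charts over `0` and `∞` (the field `D_end` of `EndData`)

`endF`: the sets `XX`, `V` and the function `u` in an end chart.  `exists_ex`: near the centre of the chart the boundary curve is in `P` or not in `P`.
`endB`: the bound of the form (if the boundary curve is not in `P`: maximum principle in the second variable).
-/

set_option autoImplicit false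

open Topology Filter Metric

noncomputable section

namespace Pool.Agent.H87.LV

open Pool.Agent.H17 (PN HolomorphicInto)
open Pool.Agent.H36.BP (EN coneOf coneOf_smul ne_zero_of_ofLp ofLp_ne_zero IsGermChart)
open Pool.Agent.H4.LU (Mem val IsParam IsInner IsHorChart IsEndChart IsEnd IsRegularEnd IsModel Over IsTangent IsLogForm)
open Pool.Agent.H62.EL (TForm)
open Pool.Agent.H14.PP (jac)
open Pool.Agent.EG.LE (cf cf_change Lp Typ IsEndT)
open Pool.Agent.EG.RL (rot)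
open Pool.Agent.H6.LU

variable {M : ℕ} {Y V : Set (PN M)} {e : PN M → ℂ} {m : ℕ} {Ω : ℂ → (Fin (M + 1) → ℂ) → (Fin (M + 1) → ℂ) → (Fin (M + 1) → ℂ) → ℂ}
  {P : Set (EN M)} {a : ℂ}

/-- the sets and the function in an end chart -/
theorem endF (h : IsModel Y V e) (a : ℂ) {e' : PN M → ℂ} {ε : ℂ} (he : EE e e' ε) {k : ℕ} {nd hor : Bool} {σ : ℂ × ℂ → EN M} {τ : EN M → ℂ × ℂ}
    {x : EN M} (hE : ECh Y V e' k nd hor σ τ x) : ∀ᶠ p in 𝓝 (0 : ℂ × ℂ), σ p ∈ coneOf Y ∧ (σ p ∈ XX Y V e ↔ p.1 ≠ 0 ∧ (nd = true → p.2 ≠ 0)) ∧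
      (σ p ∈ coneOf V ↔ p.1 ≠ 0 ∧ (nd = true ∨ hor = true → p.2 ≠ 0)) ∧
      (σ p ∈ XX Y V e → Complex.exp (ε * uu V e a (σ p)) = Complex.exp (-(ε * a)) * (p.1 * p.2 ^ (if nd = true then 1 else 0))) := by
  have hval : ∀ p : ℂ × ℂ, (if nd = true then p.1 * p.2 else p.1) = p.1 * p.2 ^ (if nd = true then 1 else 0) := by
    intro p
    by_cases hn : nd = true
    · simp [hn]
    · simp [hn]
  have hback : ∀ᶠ p in 𝓝 (0 : ℂ × ℂ), p.1 ≠ 0 → (nd = true → p.2 ≠ 0) → σ p ∈ XX Y V e := by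
    cases nd with
    | true =>
      filter_upwards [hE.form] with p hp h1 h2
      exact V_sub_XX h (hp.1.2 ⟨h1, fun _ => h2 rfl⟩)
    | false =>
      have hk : k = 1 := hE.nd_k rfl
      subst hk
      have hlim := tendsto_chart (e := e') (V := V) h.sub hE.gp (E := fun p => p.1) (Eventually.of_forall fun p => continuousAt_fst) (by
        filter_upwards [hE.form] with p hp hpV
        have := hp.2 hpV
        simpa using this)
      filter_upwards [hlim, hE.gp.mem] with p h1 h2 h3 _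
      exact (he.mem h h2 h3 h1 a).1
  filter_upwards [hE.limit, hback, hE.form, hE.gp.mem] with p h1 h2 h3 h4
  have h5 : σ p ∈ XX Y V e → ∃ w : ℂ, w ≠ 0 ∧ Tendsto (ev e') (𝓝[coneOf V] (σ p)) (𝓝 w) ∧ w = if nd = true then p.1 * p.2 else p.1 := by
    intro hX
    obtain ⟨w, hw, hlim⟩ := he.lim hX
    exact ⟨w, hw, hlim, h1 w hlim⟩
  refine ⟨h4, ⟨fun hX => ?_, fun hp => h2 hp.1 hp.2⟩, h3.1, fun hX => ?_⟩
  · obtain ⟨w, hw, -, hw'⟩ := h5 hX
    by_cases hn : nd = true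
    · rw [if_pos hn] at hw'
      rw [hw'] at hw
      exact ⟨left_ne_zero_of_mul hw, fun _ => right_ne_zero_of_mul hw⟩
    · rw [if_neg hn] at hw'
      rw [hw'] at hw
      exact ⟨hw, fun h6 => absurd h6 hn⟩
  · obtain ⟨w, hw, hlim, hw'⟩ := h5 hX
    rw [(he.mem h h4 hw hlim a).2, hw', hval]

/-- near the centre of an end chart the boundary curve is in `P` or not in `P` -/
theorem exists_ex (h : IsModel Y V e) (a : ℂ) {e' : PN M → ℂ} {ε : ℂ} (he : EE e e' ε) {k : ℕ} {nd hor : Bool} {σ : ℂ × ℂ → EN M} {τ : EN M → ℂ × ℂ}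
    {x : EN M} (hE : ECh Y V e' k nd hor σ τ x) (P_sub : P ⊆ DH Y V e) (P_closed : ∀ x ∈ XX Y V e, x ∉ P → ∀ᶠ y in 𝓝 x, y ∉ P)
    (P_open : ∀ x ∈ P, ∀ᶠ y in 𝓝 x, y ∈ DH Y V e → y ∈ P) : ∃ ex : Bool, (nd = true → ex = true) ∧ (ex = true → (nd || hor) = true) ∧
      ∀ᶠ p in 𝓝 (0 : ℂ × ℂ), σ p ∈ XX Y V e \ P ↔ p.1 ≠ 0 ∧ (ex = true → p.2 ≠ 0) := by
  have hF := endF h a he hE
  have hσ : Tendsto σ (𝓝 0) (𝓝 x) := by
    have h1 := hE.gp.σ_an.continuousAt.tendsto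
    rwa [hE.gp.center] at h1
  by_cases hb : nd = true ∨ hor = false
  · have h1 := hσ.eventually (no_DH h he hE hb)
    refine ⟨nd, id, fun hn => by simp [hn], ?_⟩
    filter_upwards [hF, h1] with p hp h2
    rw [← hp.2.1]
    exact ⟨fun h3 => h3.1, fun h3 => ⟨h3, fun h4 => h2 (P_sub h4)⟩⟩
  · push Not at hb
    obtain ⟨hnd, hho⟩ := hb
    have hnd' : nd = false := by simpa using hnd
    have hho' : hor = true := by simpa using hho
    subst hnd' hho'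
    obtain ⟨r, hr, hball⟩ := Metric.eventually_nhds_iff_ball.1 (hF.and hE.gp.σ_an.eventually_analyticAt)
    have hmem : ∀ s : ℂ, s ∈ ball (0 : ℂ) r → ((s, 0) : ℂ × ℂ) ∈ ball (0 : ℂ × ℂ) r := by
      intro s hs
      rw [mem_ball_zero_iff] at hs
      rw [mem_ball_zero_iff, Prod.norm_def, max_lt_iff]
      exact ⟨hs, by simpa using hr⟩
    have hDH : ∀ s : ℂ, s ∈ ball (0 : ℂ) r → s ≠ 0 → σ (s, 0) ∈ DH Y V e := by
      intro s hs hs0
      have h1 := (hball _ (hmem s hs)).1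
      refine ⟨h1.2.1.2 ⟨hs0, fun h2 => by simp at h2⟩, fun h2 => ?_⟩
      exact (h1.2.2.1.1 h2).2 (Or.inr rfl) rfl
    have hcs : ∀ s : ℂ, s ∈ ball (0 : ℂ) r → Tendsto (fun s' : ℂ => σ (s', 0)) (𝓝 s) (𝓝 (σ (s, 0))) := by
      intro s hs
      have h1 := (hball _ (hmem s hs)).2.continuousAt
      have h2 : Tendsto (fun s' : ℂ => ((s', 0) : ℂ × ℂ)) (𝓝 s) (𝓝 (s, 0)) := by
        have h3 : Continuous fun s' : ℂ => ((s', 0) : ℂ × ℂ) := by fun_prop
        exact h3.tendsto s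
      exact h1.tendsto.comp h2
    have hU : IsOpen {s : ℂ | ∀ᶠ s' in 𝓝 s, σ (s', 0) ∈ P} := isOpen_setOfPred_eventually_nhds
    have hU' : IsOpen {s : ℂ | ∀ᶠ s' in 𝓝 s, σ (s', 0) ∉ P} := isOpen_setOfPred_eventually_nhds
    have hdis : Disjoint {s : ℂ | ∀ᶠ s' in 𝓝 s, σ (s', 0) ∈ P} {s : ℂ | ∀ᶠ s' in 𝓝 s, σ (s', 0) ∉ P} := by
      rw [Set.disjoint_left]
      intro s h1 h2
      exact h2.self_of_nhds h1.self_of_nhds
    have hcov : ball (0 : ℂ) r \ {0} ⊆ {s : ℂ | ∀ᶠ s' in 𝓝 s, σ (s', 0) ∈ P} ∪ {s : ℂ | ∀ᶠ s' in 𝓝 s, σ (s', 0) ∉ P} := by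
      rintro s ⟨hs, hs0⟩
      by_cases hsP : σ (s, 0) ∈ P
      · left
        have h1 := (hcs s hs).eventually (P_open _ hsP)
        have h2 : ∀ᶠ s' in 𝓝 s, s' ∈ ball (0 : ℂ) r := isOpen_ball.mem_nhds hs
        have h3 : ∀ᶠ s' in 𝓝 s, s' ≠ 0 := isOpen_compl_singleton.mem_nhds hs0
        show ∀ᶠ s' in 𝓝 s, σ (s', 0) ∈ P
        filter_upwards [h1, h2, h3] with s' h4 h5 h6
        exact h4 (hDH s' h5 h6)
      · right
        exact (hcs s hs).eventually (P_closed _ (hDH s hs hs0).1 hsP)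
    have hpre := preconnected_punct 0 r
    have key : (∀ s ∈ ball (0 : ℂ) r, s ≠ 0 → σ (s, 0) ∈ P) ∨ ∀ s ∈ ball (0 : ℂ) r, s ≠ 0 → σ (s, 0) ∉ P := by
      rcases hpre.subset_or_subset hU hU' hdis hcov with h1 | h1
      · left
        intro s hs hs0
        exact (h1 ⟨hs, hs0⟩).self_of_nhds
      · right
        intro s hs hs0
        exact (h1 ⟨hs, hs0⟩).self_of_nhds
    have hfst : ∀ p : ℂ × ℂ, p ∈ ball (0 : ℂ × ℂ) r → p.1 ∈ ball (0 : ℂ) r := by
      intro p hp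
      rw [mem_ball_zero_iff, Prod.norm_def, max_lt_iff] at hp
      rw [mem_ball_zero_iff]
      exact hp.1
    have hPV : ∀ p : ℂ × ℂ, p ∈ ball (0 : ℂ × ℂ) r → p.2 ≠ 0 → σ p ∉ P := by
      intro p hp hp2 hP
      obtain ⟨h1, h2⟩ := P_sub hP
      have h3 := (hball p hp).1
      exact h2 (h3.2.2.1.2 ⟨(h3.2.1.1 h1).1, fun _ => hp2⟩)
    rcases key with h1 | h1
    · refine ⟨true, fun _ => rfl, fun _ => rfl, ?_⟩
      filter_upwards [ball_mem_nhds (0 : ℂ × ℂ) hr] with p hp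
      have h3 := (hball p hp).1
      constructor
      · rintro ⟨h4, h5⟩
        have h6 := (h3.2.1.1 h4).1
        refine ⟨h6, fun _ h7 => h5 ?_⟩
        have h8 : p = (p.1, 0) := Prod.ext rfl h7
        rw [h8]
        exact h1 p.1 (hfst p hp) h6
      · rintro ⟨h4, h5⟩
        exact ⟨h3.2.1.2 ⟨h4, fun h6 => by simp at h6⟩, hPV p hp (h5 rfl)⟩
    · refine ⟨false, fun h2 => h2, fun h2 => by simp at h2, ?_⟩
      filter_upwards [ball_mem_nhds (0 : ℂ × ℂ) hr] with p hp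
      have h3 := (hball p hp).1
      constructor
      · rintro ⟨h4, -⟩
        exact ⟨(h3.2.1.1 h4).1, fun h6 => by simp at h6⟩
      · rintro ⟨h4, -⟩
        refine ⟨h3.2.1.2 ⟨h4, fun h6 => by simp at h6⟩, ?_⟩
        by_cases h5 : p.2 = 0
        · have h8 : p = (p.1, 0) := Prod.ext rfl h5
          rw [h8]
          exact h1 p.1 (hfst p hp) h4
        · exact hPV p hp h5

end Pool.Agent.H87.LV
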