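import Pool.Agent.H87.LV.UdA
import Pool.Agent.EG.LE.Main

/-!
# LV UdB: the hypotheses `HasII` and `Away` of the ends
-/

set_option autoImplicit false

open Topology Filter Metric

namespace Pool.Agent.H87.LV

open Pool.Agent.H36.BP (EN fs wd IsGermChart)
open Pool.Agent.H14.PP (IsCone Chart Tan CurveAt)
open Pool.Agent.H62.EF (Lat MN pr TorusMap Sec Charts DU)
open Pool.Agent.H62.EL (Ag BadSet IsNC TForm Mon mo Cap IRel II Per VanZero Thin Zr)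
open Pool.Agent.H18.LU (SecAt SO Nb part LFib LData CstL HasCap HasRel)
open Pool.Agent.EG.LE (SecOn TT HasII Away cf)
open Pool.Agent.H87.LU (UDyn Mid Appr Sh rfT rfI)

variable {N : ℕ} {X D P : Set (EN N)} {Λ Γ : AddSubgroup ℂ} {u : EN N → ℂ} {B : Set ℂ} {δ : ℝ}

/-- the values of the sections over large balls are in a compact subset of `pr '' (X \ P)` -/
theorem away_of (E : LData X D P Λ Γ u B δ) {δ' : ℝ} (hδ' : 0 < δ') (R : ℝ) : ∃ (r₁ : ℝ) (K₁ : Set (MN N)), 0 < r₁ ∧ IsCompact K₁ ∧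
    K₁ ⊆ pr '' (X \ P) ∧ ∀ z ∈ Pool.Agent.H62.EL.Gd B δ', z ∈ Nb Λ R → ∀ f ∈ SO X D Λ u B (ball z r₁), f z ∈ K₁ := by
  obtain ⟨r₁, r, hr₁, hr, h⟩ := Pool.Agent.H18.LU.deepP E hδ' R
  have hc := Pool.Agent.H62.EF.isCompact_pr (E.part_isCone R)
  refine ⟨r₁, pr '' part X Λ u R ∩ ⋂ x ∈ P, {y | r ≤ dist (pr x) y}, hr₁, hc.inter_right ?_, ?_, fun z hz hzR f hf => ?_⟩
  · exact isClosed_biInter fun x _ => isClosed_le continuous_const (continuous_const.dist continuous_id)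
  · rintro _ ⟨⟨x, hx, rfl⟩, hy⟩
    refine ⟨x, ⟨hx.1, fun hxP => ?_⟩, rfl⟩
    have h1 : r ≤ dist (pr x) (pr x) := (Set.mem_iInter₂.1 hy) x hxP
    rw [dist_self] at h1
    linarith
  · refine ⟨Pool.Agent.H18.LU.so_mem E hf (mem_ball_self hr₁) (Pool.Agent.H62.EL.gd_notMem hδ' hz) hzR, ?_⟩
    exact Set.mem_iInter₂.2 fun x hx => h z hz hzR f hf x hx

theorem tan_of {V : Set (EN N)} {ψ : ℂ × ℂ → EN N} {q : ℂ × ℂ} (hψ : AnalyticAt ℂ ψ q) (hV : ∀ᶠ y in 𝓝 q, ψ y ∈ V) (w : ℂ × ℂ) :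
    Tan V (ψ q) (fderiv ℂ ψ q w) := by
  have hl : AnalyticAt ℂ (fun z : ℂ => q + z • w) 0 := by fun_prop
  have hl0 : q + (0 : ℂ) • w = q := by rw [zero_smul, add_zero]
  refine ⟨fun z => ψ (q + z • w), ⟨?_, ?_⟩, ?_, ?_⟩
  · have h1 : AnalyticAt ℂ ψ ((fun z : ℂ => q + z • w) 0) := by
      show AnalyticAt ℂ ψ (q + (0 : ℂ) • w)
      rw [hl0]
      exact hψ
    exact h1.comp (f := fun z : ℂ => q + z • w) hl
  · have h1 : Tendsto (fun z : ℂ => q + z • w) (𝓝 0) (𝓝 q) := by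
      have := hl.continuousAt.tendsto
      rwa [hl0] at this
    exact h1.eventually hV
  · show ψ (q + (0 : ℂ) • w) = ψ q
    rw [hl0]
  · have h1 : HasDerivAt (fun z : ℂ => q + z • w) w 0 := by
      have := ((hasDerivAt_id (0 : ℂ)).smul_const w).const_add q
      simpa using this
    have h2 : HasFDerivAt ψ (fderiv ℂ ψ q) ((fun z : ℂ => q + z • w) 0) := by
      show HasFDerivAt ψ (fderiv ℂ ψ q) (q + (0 : ℂ) • w)
      rw [hl0]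
      exact hψ.differentiableAt.hasFDerivAt
    exact (h2.comp_hasDerivAt (0 : ℂ) h1).deriv

/-- the reflection of the first coordinate -/
noncomputable def rfl1 : ℂ × ℂ →L[ℂ] ℂ × ℂ := (-(ContinuousLinearMap.fst ℂ ℂ ℂ)).prod (ContinuousLinearMap.snd ℂ ℂ ℂ)

theorem rfl1_apply (q : ℂ × ℂ) : rfl1 q = (-q.1, q.2) := rfl

/-- the coefficient of the reflected form -/
theorem cf_refl {V : Set (EN N)} (α : TForm V Λ u) {Φ : ℂ × ℂ → EN N} {z w : ℂ} (hΦ : AnalyticAt ℂ Φ (z, w))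
    (hV : ∀ᶠ q in 𝓝 (z, w), Φ q ∈ V ∧ -u (Φ q) - q.1 ∈ Λ) : cf α (fun q => Φ (rfl1 q)) (-z) (-z, w) = cf α.refl Φ z (z, w) := by
  have hq : rfl1 (-z, w) = (z, w) := by rw [rfl1_apply, neg_neg]
  have hΦ' : HasFDerivAt Φ (fderiv ℂ Φ (z, w)) (rfl1 (-z, w)) := by
    rw [hq]
    exact hΦ.differentiableAt.hasFDerivAt
  have h1 : fderiv ℂ (fun q => Φ (rfl1 q)) (-z, w) = (fderiv ℂ Φ (z, w)).comp rfl1 := (hΦ'.comp (-z, w) rfl1.hasFDerivAt).fderiv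
  have h2 : rfl1 ((1 : ℂ), (0 : ℂ)) = (-1 : ℂ) • ((1 : ℂ), (0 : ℂ)) := by
    rw [rfl1_apply]
    simp
  have h3 : rfl1 ((0 : ℂ), (1 : ℂ)) = ((0 : ℂ), (1 : ℂ)) := by
    rw [rfl1_apply]
    simp
  unfold cf
  simp only
  rw [h1, ContinuousLinearMap.comp_apply, ContinuousLinearMap.comp_apply, h2, h3, map_smul, hq]
  have h4 := hV.self_of_nhds
  have h5 : ∀ᶠ q in 𝓝 (z, w), Φ q ∈ V := hV.mono fun q h => h.1
  have h6 := α.det (-z) (Φ (z, w)) h4.1 (neg_mem_iff.1 h4.2) _ _ (tan_of hΦ h5 (1, 0)) (tan_of hΦ h5 (0, 1)) (-1) 0 0 1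
  rw [zero_smul, add_zero, zero_smul, zero_add, one_smul] at h6
  rw [h6]
  show _ = -α.toFun (-z) (Φ (z, w)) _ _
  ring

/-- `HasII` on the left -/
theorem hasII_left (E : LData X D P Λ Γ u B δ) {α : TForm (X \ P) Λ u} {R r₁ r₂ ε ε₀ C W₀ W₁ : ℝ} (hc : CstL D B δ R α r₁ ε ε₀ C)
    (hr : r₁ ≤ r₂) (hR : ∀ z : ℂ, W₀ ≤ z.re → z.re ≤ W₁ → z ∈ Nb Λ R ∧ z ∈ Pool.Agent.H62.EL.Gd B δ) :
    HasII (X \ D) α (II α ε) r₂ W₀ W₁ := by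
  refine ⟨min ε₀ ε, lt_min hc.ε₀_pos hc.ε_pos, fun z w₀ w₁ Φ F G h0 h1 hF _ hF0 _ hΦ hd => ?_⟩
  obtain ⟨hzR, hzG⟩ := hR z h0 h1
  have hf : (fun z => pr (F z)) ∈ SO X D Λ u B (ball z r₁) := so_anti (ball_subset_ball hr) (secOn_so isOpen_ball hF fun _ _ => rfl)
  have h := hc.param E hzG hzR hf (Φ := Φ) (w₀ := w₀) (w₁ := w₁) (fun θ hθ => ⟨(hΦ θ hθ).1, (hΦ θ hθ).2, by
    show dist _ (pr (F z)) ≤ _
    rw [hF0]
    exact hd θ hθ⟩) hF0.symm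
  rw [← hF0]
  exact h

/-- `HasII` for the reflected situation -/
theorem hasII_right (E : LData X D P Λ Γ u B δ) {α : TForm (X \ P) Λ u} {R r₁ r₂ ε ε₀ C W₀ W₁ : ℝ} (hc : CstL D B δ R α r₁ ε ε₀ C)
    (hr : r₁ ≤ r₂) (hR : ∀ z : ℂ, W₀ ≤ z.re → z.re ≤ W₁ → -z ∈ Nb Λ R ∧ -z ∈ Pool.Agent.H62.EL.Gd B δ) :
    HasII (X \ D) α.refl (rfI (II α ε)) r₂ W₀ W₁ := by
  refine ⟨min ε₀ ε, lt_min hc.ε₀_pos hc.ε_pos, fun z w₀ w₁ Φ F G h0 h1 hF _ hF0 _ hΦ hd => ?_⟩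
  obtain ⟨hzR, hzG⟩ := hR z h0 h1
  have hF' : SecOn (X \ D) Λ u (ball (-z) r₂) (fun z => F (-z)) := by
    have h2 := secOn_refl' hF
    rwa [neg_ball] at h2
  have hf : (fun z => pr (F (-z))) ∈ SO X D Λ u B (ball (-z) r₁) := so_anti (ball_subset_ball hr) (secOn_so isOpen_ball hF' fun _ _ => rfl)
  have hz : ∀ w : ℂ, rfl1 (-z, w) = (z, w) := fun w => by rw [rfl1_apply, neg_neg]
  have h := hc.param E hzG hzR hf (Φ := fun q => Φ (rfl1 q)) (w₀ := w₀) (w₁ := w₁) (fun θ hθ => ⟨?_, ?_, ?_⟩) ?_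
  · simp only [neg_neg] at h
    rw [← hF0]
    show II α ε (-z) (pr (F z)) (pr (Φ (z, w₁))) = _
    rw [← hz w₁, h]
    refine intervalIntegral.integral_congr fun θ hθ => ?_
    rw [Set.uIcc_of_le zero_le_one] at hθ
    have h3 := cf_refl α (hΦ θ hθ).1 (hΦ θ hθ).2
    unfold cf at h3
    unfold cf
    rw [h3]
  · have h2 := (hΦ θ hθ).1
    rw [← hz] at h2
    exact h2.comp (rfl1.analyticAt _)
  · have h2 := (hΦ θ hθ).2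
    have h3 : Tendsto rfl1 (𝓝 (-z, w₀ + θ * (w₁ - w₀))) (𝓝 (z, w₀ + θ * (w₁ - w₀))) := by
      have h4 := rfl1.continuous.tendsto (-z, w₀ + θ * (w₁ - w₀))
      rwa [hz] at h4
    filter_upwards [h3.eventually h2] with q hq
    refine ⟨hq.1, ?_⟩
    have h5 := neg_mem_iff.1 hq.2
    rw [rfl1_apply, neg_neg] at h5
    rw [rfl1_apply]
    exact h5
  · simp only [neg_neg, hz]
    rw [hF0]
    exact hd θ hθ
  · simp only [neg_neg, hz]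
    exact hF0.symm

/-- `Away` on the left -/
theorem away_left {R T₁ r₁ r₂ : ℝ} {K₁ : Set (MN N)} (hK : IsCompact K₁) (hKX : K₁ ⊆ pr '' (X \ P)) (hr : r₁ ≤ r₂)
    (h : ∀ z ∈ Pool.Agent.H62.EL.Gd B δ, z ∈ Nb Λ R → ∀ f ∈ SO X D Λ u B (ball z r₁), f z ∈ K₁)
    (hR : ∀ z : ℂ, -T₁ - 10 ≤ z.re → z.re ≤ -T₁ → z ∈ Nb Λ R ∧ z ∈ Pool.Agent.H62.EL.Gd B δ) : Away (X \ P) (X \ D) Λ u T₁ r₂ := by
  refine ⟨K₁, hK, hKX, fun z F h0 h1 hF => ?_⟩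
  obtain ⟨hzR, hzG⟩ := hR z h0 h1
  exact h z hzG hzR (fun z => pr (F z)) (so_anti (ball_subset_ball hr) (secOn_so isOpen_ball hF fun _ _ => rfl))

/-- `Away` on the right -/
theorem away_right {R T₁ r₁ r₂ : ℝ} {K₁ : Set (MN N)} (hK : IsCompact K₁) (hKX : K₁ ⊆ pr '' (X \ P)) (hr : r₁ ≤ r₂)
    (h : ∀ z ∈ Pool.Agent.H62.EL.Gd B δ, z ∈ Nb Λ R → ∀ f ∈ SO X D Λ u B (ball z r₁), f z ∈ K₁)
    (hR : ∀ z : ℂ, -T₁ - 10 ≤ z.re → z.re ≤ -T₁ → -z ∈ Nb Λ R ∧ -z ∈ Pool.Agent.H62.EL.Gd B δ) :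
    Away (X \ P) (X \ D) Λ (fun x => -u x) T₁ r₂ := by
  refine ⟨K₁, hK, hKX, fun z F h0 h1 hF => ?_⟩
  obtain ⟨hzR, hzG⟩ := hR z h0 h1
  have hF' : SecOn (X \ D) Λ u (ball (-z) r₂) (fun z => F (-z)) := by
    have h2 := secOn_refl' hF
    rwa [neg_ball] at h2
  have h3 := h (-z) hzG hzR (fun z => pr (F (-z))) (so_anti (ball_subset_ball hr) (secOn_so isOpen_ball hF' fun _ _ => rfl))
  simpa only [neg_neg] using h3

end Pool.Agent.H87.LV
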